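import Pool.Agent.E8helper17.PQ.NoConf

set_option autoImplicit false
set_option linter.all false

namespace Pool.Agent.E8helper17.PQ

open Set

/-- Martin's axiom for `ℵ₁` dense sets: in every nonempty partial order (preorder) in which every
set of pairwise incompatible elements is countable, any `ℵ₁` dense sets are met by a filter -/
def MartinsAxiomAlephOne : Prop :=
  ∀ (P : Type) [Preorder P] [Nonempty P],
    (∀ W : Set P, (∀ p ∈ W, ∀ q ∈ W, p ≠ q → ¬ ∃ r, r ≤ p ∧ r ≤ q) → W.Countable) →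
    ∀ (ι : Type) (D : ι → Set P), Cardinal.mk ι ≤ Cardinal.aleph 1 →
      (∀ i p, ∃ q ∈ D i, q ≤ p) →
      ∃ G : Set P, (∀ p ∈ G, ∀ q, p ≤ q → q ∈ G) ∧ (∀ p ∈ G, ∀ q ∈ G, ∃ r ∈ G, r ≤ p ∧ r ≤ q) ∧
        ∀ i, (G ∩ D i).Nonempty

variable {B : Type} [BooleanAlgebra B]

lemma CantorBendixsonIdeals.mono {I : Ordinal.{0} → Ideal (AsBoolRing B)}
    (hI : CantorBendixsonIdeals B I) : ∀ β γ, γ ≤ β → I γ ≤ I β := by
  intro β
  induction β using Ordinal.limitRecOn with
  | zero =>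
    intro γ hγ
    have : γ = 0 := le_antisymm hγ zero_le
    rw [this]
  | add_one β ih =>
    intro γ hγ
    rcases hγ.lt_or_eq with hlt | rfl
    · refine (ih γ (Order.lt_add_one_iff.1 hlt)).trans ?_
      intro x hx
      have h1 : Mem (I β) (ofBoolRing x) := hx
      have h2 : toBoolRing (ofBoolRing x) ∈ I (β + 1) := (hI.succ β _).2 ⟨∅, by simp, by
        rw [Finset.sup_empty, quotientHom_eq_bot]; exact h1⟩
      exact h2
    · exact le_rfl
  | limit β hβ ih =>
    intro γ hγ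
    rcases hγ.lt_or_eq with hlt | rfl
    · intro x hx
      have h2 : toBoolRing (ofBoolRing x) ∈ I β := (hI.limit β hβ _).2 ⟨γ, hlt, hx⟩
      exact h2
    · exact le_rfl

/-- finite approximations to an uncountable set of atoms which is finite below every element of
the ideal `J` -/
def Cond (J : Ideal (AsBoolRing B)) : Type :=
  {p : Finset B × B // (∀ a ∈ p.1, IsAtom a) ∧ Mem J p.2}

instance (J : Ideal (AsBoolRing B)) : Preorder (Cond J) where
  le q p := p.1.1 ⊆ q.1.1 ∧ p.1.2 ≤ q.1.2 ∧ ∀ a ∈ q.1.1, a ∉ p.1.1 → ¬ a ≤ p.1.2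
  le_refl p := ⟨Finset.Subset.refl _, le_rfl, fun a ha h => absurd ha h⟩
  le_trans r q p := by
    rintro ⟨h1, h2, h3⟩ ⟨h4, h5, h6⟩
    refine ⟨h4.trans h1, h5.trans h2, ?_⟩
    intro a ha hap
    by_cases haq : a ∈ q.1.1
    · exact h6 a haq hap
    · exact fun h => h3 a ha haq (h.trans h5)

/-- incompatibility of raw conditions -/
def Incomp (p q : Finset B × B) : Prop :=
  (∃ x ∈ p.1, x ∉ q.1 ∧ x ≤ q.2) ∨ (∃ x ∈ q.1, x ∉ p.1 ∧ x ≤ p.2)

lemma incomp_of {J : Ideal (AsBoolRing B)} (p q : Cond J) (h : ¬ ∃ r, r ≤ p ∧ r ≤ q) :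
    Incomp p.1 q.1 := by
  classical
  by_contra hcon
  apply h
  unfold Incomp at hcon
  push Not at hcon
  refine ⟨⟨(p.1.1 ∪ q.1.1, p.1.2 ⊔ q.1.2), ?_, mem_sup p.2.2 q.2.2⟩, ⟨?_, ?_, ?_⟩, ⟨?_, ?_, ?_⟩⟩
  · intro a ha
    rcases Finset.mem_union.1 ha with ha | ha
    · exact p.2.1 a ha
    · exact q.2.1 a ha
  · exact Finset.subset_union_left
  · exact le_sup_left
  · intro a ha hap
    rcases Finset.mem_union.1 ha with ha | ha
    · exact absurd ha hap
    · exact hcon.2 a ha hap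
  · exact Finset.subset_union_right
  · exact le_sup_right
  · intro a ha haq
    rcases Finset.mem_union.1 ha with ha | ha
    · exact hcon.1 a ha haq
    · exact absurd ha haq

lemma ccc_raw {I : Ordinal.{0} → Ideal (AsBoolRing B)} (hI : CantorBendixsonIdeals B I)
    (hP : PropertyP B) (hat : ¬ {a : B | IsAtom a}.Countable) {α : Ordinal.{0}}
    (hα : ¬ Mem (I α) ⊤) (hα1 : α < Ordinal.omega 1) :
    ∀ (n : ℕ) (W : Set (Finset B × B)), (∀ p ∈ W, p.1.card = n ∧ (∀ a ∈ p.1, IsAtom a) ∧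
      Mem (I α) p.2) → (∀ p ∈ W, ∀ q ∈ W, p ≠ q → Incomp p q) → W.Countable := by
  classical
  intro n
  induction n with
  | zero =>
    intro W hW hinc
    refine (Set.Subsingleton.countable ?_)
    intro p hp q hq
    by_contra hne
    have hp0 : p.1 = ∅ := Finset.card_eq_zero.1 (hW p hp).1
    have hq0 : q.1 = ∅ := Finset.card_eq_zero.1 (hW q hq).1
    rcases hinc p hp q hq hne with ⟨x, hx, _⟩ | ⟨x, hx, _⟩
    · rw [hp0] at hx; exact absurd hx (Finset.notMem_empty x)
    · rw [hq0] at hx; exact absurd hx (Finset.notMem_empty x)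
  | succ n ih =>
    intro W hW hinc
    by_contra hcon
    by_cases hcase : ∃ a, ¬ {p ∈ W | a ∈ p.1}.Countable
    · obtain ⟨a, ha⟩ := hcase
      apply ha
      let f : Finset B × B → Finset B × B := fun p => (p.1.erase a, p.2)
      have hinj : InjOn f {p ∈ W | a ∈ p.1} := by
        intro p hp q hq h
        have h' : (p.1.erase a, p.2) = (q.1.erase a, q.2) := h
        have h1 : p.1.erase a = q.1.erase a := (Prod.mk.inj h').1
        have h2 : p.2 = q.2 := (Prod.mk.inj h').2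
        refine Prod.ext ?_ h2
        rw [← Finset.insert_erase hp.2, ← Finset.insert_erase hq.2, h1]
      have hc := ih (f '' {p ∈ W | a ∈ p.1}) (by
        rintro _ ⟨p, hp, rfl⟩
        refine ⟨?_, ?_, (hW p hp.1).2.2⟩
        · show (p.1.erase a).card = n
          rw [Finset.card_erase_of_mem hp.2, (hW p hp.1).1]
          rfl
        · intro x hx
          exact (hW p hp.1).2.1 x (Finset.mem_of_mem_erase hx)) (by
        rintro _ ⟨p, hp, rfl⟩ _ ⟨q, hq, rfl⟩ hne
        have hne' : p ≠ q := fun h => hne (by rw [h])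
        rcases hinc p hp.1 q hq.1 hne' with ⟨x, hx, hxq, hxl⟩ | ⟨x, hx, hxp, hxl⟩
        · left
          have hxa : x ≠ a := fun h => hxq (h ▸ hq.2)
          exact ⟨x, Finset.mem_erase.2 ⟨hxa, hx⟩, fun h => hxq (Finset.mem_of_mem_erase h), hxl⟩
        · right
          have hxa : x ≠ a := fun h => hxp (h ▸ hp.2)
          exact ⟨x, Finset.mem_erase.2 ⟨hxa, hx⟩, fun h => hxp (Finset.mem_of_mem_erase h), hxl⟩)
      exact Set.countable_of_injective_of_countable_image hinj hc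
    · push Not at hcase
      obtain ⟨f, hfW, hf⟩ := exists_seq W (fun p w => p ∈ W → (∀ x ∈ p.1, x ∉ w.1) ∧
          ∀ x ∈ w.1, ¬ x ≤ p.2) (by
        intro C hC
        by_contra hno
        push Not at hno
        apply hcon
        have hsub : W ⊆ ⋃ p ∈ C ∩ W, ((⋃ x ∈ (p.1 : Set B), {w ∈ W | x ∈ w.1}) ∪
            ⋃ x ∈ Iic p.2, {w ∈ W | x ∈ w.1}) := by
          intro w hw
          obtain ⟨p, hp, hpW, h⟩ := hno w hw
          refine mem_iUnion₂.2 ⟨p, ⟨hp, hpW⟩, ?_⟩
          by_cases h1 : ∀ x ∈ p.1, x ∉ w.1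
          · obtain ⟨x, hx, hxl⟩ := h h1
            exact Or.inr (mem_iUnion₂.2 ⟨x, hxl, hw, hx⟩)
          · push Not at h1
            obtain ⟨x, hx, hxw⟩ := h1
            exact Or.inl (mem_iUnion₂.2 ⟨x, hx, hw, hxw⟩)
        refine Set.Countable.mono hsub ?_
        refine (hC.mono inter_subset_left).biUnion fun p hp => ?_
        refine Set.Countable.union ?_ ?_
        · exact p.1.finite_toSet.countable.biUnion fun x _ => hcase x
        · exact (countable_Iic_of_mem hI hP hα (hW p hp.2).2.2).biUnion fun x _ => hcase x)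
      have hA : Fam (fun ξ => (f ξ).1) := by
        constructor
        · intro ζ a ha
          exact (hW _ (hfW ζ)).2.1 a ha
        · intro ζ ξ hne
          rw [Finset.disjoint_left]
          rcases lt_or_gt_of_ne hne with h | h
          · exact (hf ζ ξ h (hfW ζ)).1
          · intro a ha ha'
            exact (hf ξ ζ h (hfW ξ)).1 a ha' ha
      refine no_conf hI hP hat hα hα1 hI.mono hA α le_rfl ⟨univ, uncountable_univ_Om1,
        fun ξ => (f ξ).2, fun ξ _ => (hW _ (hfW ξ)).2.2, ?_⟩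
      intro ξ _ ζ _ hlt
      have hg := hf ζ ξ hlt (hfW ζ)
      have hne : f ζ ≠ f ξ := by
        intro h
        have hcard := (hW _ (hfW ζ)).1
        have hnonempty : (f ζ).1.Nonempty := by
          rw [← Finset.card_pos, hcard]; omega
        obtain ⟨x, hx⟩ := hnonempty
        exact hg.1 x hx (h ▸ hx)
      rcases hinc _ (hfW ζ) _ (hfW ξ) hne with ⟨x, hx, _, hxl⟩ | ⟨x, hx, _, hxl⟩
      · exact ⟨x, hx, hxl⟩
      · exact absurd hxl (hg.2 x hx)

theorem ccc {I : Ordinal.{0} → Ideal (AsBoolRing B)} (hI : CantorBendixsonIdeals B I)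
    (hP : PropertyP B) (hat : ¬ {a : B | IsAtom a}.Countable) {α : Ordinal.{0}}
    (hα : ¬ Mem (I α) ⊤) (hα1 : α < Ordinal.omega 1) (W : Set (Cond (I α)))
    (hW : ∀ p ∈ W, ∀ q ∈ W, p ≠ q → ¬ ∃ r, r ≤ p ∧ r ≤ q) : W.Countable := by
  by_contra hcon
  obtain ⟨n, hn⟩ := pigeon hcon (fun p => p.1.1.card)
  apply hn
  have hc := ccc_raw hI hP hat hα hα1 n
    (Subtype.val '' {p : Cond (I α) | p ∈ W ∧ p.1.1.card = n}) (by
      rintro _ ⟨p, hp, rfl⟩
      exact ⟨hp.2, p.2.1, p.2.2⟩) (by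
      rintro _ ⟨p, hp, rfl⟩ _ ⟨q, hq, rfl⟩ hne
      exact incomp_of p q (hW p hp.1 q hq.1 (fun h => hne (by rw [h]))))
  exact Set.countable_of_injective_of_countable_image Subtype.val_injective.injOn hc

end Pool.Agent.E8helper17.PQ
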