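import Pool.Agent.E8helper17.PQ.OmSeq

set_option autoImplicit false
set_option linter.all false

namespace Pool.Agent.E8helper17.PQ

open Set

/-! ### pigeonhole and recursion -/

lemma pigeon {S T : Type*} [Countable T] {E : Set S} (hE : ¬ E.Countable) (f : S → T) :
    ∃ t, ¬ {x | x ∈ E ∧ f x = t}.Countable := by
  by_contra hcon
  push Not at hcon
  apply hE
  have : E ⊆ ⋃ t : T, {x | x ∈ E ∧ f x = t} := fun x hx => mem_iUnion.2 ⟨f x, hx, rfl⟩
  exact (countable_iUnion hcon).mono this

lemma countable_Iic_Om1 (a : Om1) : (Iic a).Countable := by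
  rw [← Iio_union_right]
  exact (countable_Iio_Om1 a).union (countable_singleton a)

lemma uncountable_univ_Om1 : ¬ (univ : Set Om1).Countable := by
  intro h
  rw [← Cardinal.le_aleph0_iff_set_countable, Cardinal.mk_univ, mk_Om1] at h
  exact absurd h (not_le.2 Cardinal.aleph0_lt_aleph_one)

lemma uncountable_inter_Ioi {E : Set Om1} (hE : ¬ E.Countable) (δ : Om1) :
    ¬ (E ∩ Ioi δ).Countable := by
  intro h
  apply hE
  have : E ⊆ (E ∩ Ioi δ) ∪ Iic δ := by
    intro x hx
    rcases le_or_gt x δ with h | h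
    · exact Or.inr h
    · exact Or.inl ⟨hx, h⟩
  exact (h.union (countable_Iic_Om1 δ)).mono this

lemma nonempty_of_uncountable {S : Type} {E : Set S} (hE : ¬ E.Countable) : E.Nonempty := by
  rw [nonempty_iff_ne_empty]
  rintro rfl
  exact hE countable_empty

lemma exists_seq {T : Type} (W : Set T) (good : T → T → Prop)
    (h : ∀ C : Set T, C.Countable → ∃ w ∈ W, ∀ t ∈ C, good t w) :
    ∃ f : Om1 → T, (∀ ξ, f ξ ∈ W) ∧ ∀ ζ ξ, ζ < ξ → good (f ζ) (f ξ) := by
  classical
  have hcount : ∀ (ξ : Om1) (ih : ∀ ζ, ζ < ξ → T),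
      {t | ∃ ζ, ∃ h : ζ < ξ, ih ζ h = t}.Countable := by
    intro ξ ih
    have : {t | ∃ ζ, ∃ h : ζ < ξ, ih ζ h = t} = range (fun z : Iio ξ => ih z.1 z.2) := by
      ext t
      constructor
      · rintro ⟨ζ, h, rfl⟩
        exact ⟨⟨ζ, h⟩, rfl⟩
      · rintro ⟨z, rfl⟩
        exact ⟨z.1, z.2, rfl⟩
    rw [this]
    haveI : Countable (Iio ξ) := (countable_Iio_Om1 ξ).to_subtype
    exact countable_range _
  let F : (ξ : Om1) → ((ζ : Om1) → ζ < ξ → T) → T := fun ξ ih => (h _ (hcount ξ ih)).choose
  have hF : ∀ ξ ih, F ξ ih ∈ W ∧ ∀ t ∈ {t | ∃ ζ, ∃ h : ζ < ξ, ih ζ h = t}, good t (F ξ ih) :=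
    fun ξ ih => (h _ (hcount ξ ih)).choose_spec
  let f : Om1 → T := (wellFounded_lt (α := Om1)).fix F
  have hf : ∀ a, f a = F a (fun b _ => f b) := fun a => (wellFounded_lt (α := Om1)).fix_eq F a
  refine ⟨f, fun ξ => ?_, fun ζ ξ hlt => ?_⟩
  · rw [hf]; exact (hF ξ _).1
  · rw [hf ξ]
    exact (hF ξ _).2 _ ⟨ζ, hlt, rfl⟩

/-! ### quotients and the ideals -/

section
variable {B : Type} [BooleanAlgebra B]

lemma quotientHom_eq_iff {J : Ideal (AsBoolRing B)} {a b : B} :
    quotientHom J a = quotientHom J b ↔ Mem J (a \ b) ∧ Mem J (b \ a) := by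
  rw [le_antisymm_iff, quotientHom_le, quotientHom_le]

/-- surjective homomorphisms of `B` onto itself do not raise the Cantor-Bendixson rank -/
lemma map_CB {I : Ordinal.{0} → Ideal (AsBoolRing B)} (hI : CantorBendixsonIdeals B I)
    (q : BoundedLatticeHom B B) (hq : Function.Surjective q) :
    ∀ (β : Ordinal.{0}) (b : B), Mem (I β) b → Mem (I β) (q b) := by
  classical
  intro β
  induction β using Ordinal.limitRecOn with
  | zero =>
    intro b hb
    rw [hI.zero] at hb ⊢
    have h1 : (toBoolRing b : AsBoolRing B) = 0 := hb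
    have h2 : b = ⊥ := by
      have := congrArg ofBoolRing h1
      simpa using this
    rw [h2, map_bot]
    exact mem_bot _
  | limit β hβ ih =>
    intro b hb
    obtain ⟨γ, hγ, hb'⟩ := (hI.limit β hβ b).1 hb
    exact (hI.limit β hβ (q b)).2 ⟨γ, hγ, ih γ hγ b hb'⟩
  | add_one β ih =>
    intro b hb
    obtain ⟨s, hs, hsb⟩ := (hI.succ β b).1 hb
    refine (hI.succ β (q b)).2 ?_
    have hcongr : ∀ a c : B, quotientHom (I β) a = quotientHom (I β) c →
        quotientHom (I β) (q a) = quotientHom (I β) (q c) := by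
      intro a c h
      rw [quotientHom_eq_iff] at h ⊢
      rw [← map_sdiff', ← map_sdiff']
      exact ⟨ih _ h.1, ih _ h.2⟩
    clear hb
    revert b
    induction s using Finset.induction_on with
    | empty =>
      intro b hb
      rw [Finset.sup_empty, quotientHom_eq_bot] at hb
      refine ⟨∅, by simp, ?_⟩
      rw [Finset.sup_empty, quotientHom_eq_bot]
      exact ih b hb
    | insert a s has ihs =>
      intro b hb
      obtain ⟨a', ha'⟩ := quotientHom_surjective (I β) a
      obtain ⟨c, hc⟩ := quotientHom_surjective (I β) (s.sup id)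
      obtain ⟨t, ht, htc⟩ := ihs (fun x hx => hs x (Finset.mem_insert_of_mem hx)) c hc
      have h1 : quotientHom (I β) b = quotientHom (I β) (a' ⊔ c) := by
        rw [hb, Finset.sup_insert, map_sup, ha', hc]; rfl
      have h2 := hcongr _ _ h1
      rw [map_sup, map_sup, htc] at h2
      by_cases hbot : quotientHom (I β) (q a') = ⊥
      · refine ⟨t, ht, ?_⟩
        rw [h2, hbot, bot_sup_eq]
      · refine ⟨insert (quotientHom (I β) (q a')) t, ?_, ?_⟩
        · intro x hx
          rcases Finset.mem_insert.1 hx with rfl | hx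
          · refine ⟨hbot, ?_⟩
            intro d hd
            obtain ⟨d, rfl⟩ := quotientHom_surjective (I β) d
            obtain ⟨d', rfl⟩ := hq d
            have hat : IsAtom (quotientHom (I β) a') := by
              rw [ha']; exact hs a (Finset.mem_insert_self _ _)
            have hle : quotientHom (I β) (d' ⊓ a') ≤ quotientHom (I β) a' :=
              OrderHomClass.mono (quotientHom (I β)) inf_le_right
            have h3 : quotientHom (I β) (q d') = quotientHom (I β) (q (d' ⊓ a')) := by
              rw [map_inf, map_inf, inf_eq_left.2 hd.le]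
            rcases hat.le_iff.1 hle with h4 | h4
            · rw [h3]
              have h5 := hcongr (d' ⊓ a') ⊥ (by rw [h4, map_bot])
              rw [h5, map_bot, map_bot]
            · have h5 := hcongr _ _ h4
              rw [h3, h5] at hd
              exact absurd hd (lt_irrefl _)
          · exact ht x hx
        · rw [h2, Finset.sup_insert]; rfl

/-- property (P) gives surjective endomorphisms with prescribed kernel -/
lemma exists_hom (hP : PropertyP B) (J : Ideal (AsBoolRing B))
    (hJ : Uncountable (QuotientAlgebra B J)) :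
    ∃ q : BoundedLatticeHom B B, Function.Surjective q ∧ ∀ b, q b = ⊥ ↔ Mem J b := by
  obtain ⟨e⟩ := hP J hJ
  refine ⟨(e : BoundedLatticeHom (QuotientAlgebra B J) B).comp (quotientHom J), ?_, ?_⟩
  · exact e.surjective.comp (quotientHom_surjective J)
  · intro b
    rw [← quotientHom_eq_bot]
    show e (quotientHom J b) = ⊥ ↔ _
    exact map_eq_bot_iff e

/-- the elements disjoint from `K` -/
def disjIdeal (K : B) : Ideal (AsBoolRing B) :=
  mkIdeal {b : B | Disjoint b K} disjoint_bot_left
    (fun a ha b hb => Disjoint.sup_left ha hb)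
    (fun a b hab hb => Disjoint.mono_left hab hb)

/-- relative algebras of elements of small rank are countable -/
lemma countable_Iic_of_mem {I : Ordinal.{0} → Ideal (AsBoolRing B)}
    (hI : CantorBendixsonIdeals B I) (hP : PropertyP B) {α : Ordinal.{0}}
    (hα : ¬ Mem (I α) ⊤) {K : B} (hK : Mem (I α) K) : (Iic K).Countable := by
  by_contra hcon
  have hunc : Uncountable (QuotientAlgebra B (disjIdeal K)) := by
    rw [← not_countable_iff]
    intro hc
    apply hcon
    have hm : MapsTo (quotientHom (disjIdeal K)) (Iic K) univ := fun _ _ => mem_univ _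
    refine hm.countable_of_injOn ?_ (countable_univ_iff.2 hc)
    have key : ∀ a b : B, a ≤ K → quotientHom (disjIdeal K) a ≤ quotientHom (disjIdeal K) b →
        a ≤ b := by
      intro a b ha h
      rw [quotientHom_le] at h
      have h1 : Disjoint (a \ b) K := h
      have h2 : a \ b ≤ K := sdiff_le.trans ha
      have h3 : a \ b = ⊥ := by
        rw [← disjoint_self]
        exact h1.mono_right h2
      exact sdiff_eq_bot_iff.1 h3
    intro a ha b hb hab
    exact le_antisymm (key a b ha hab.le) (key b a hb hab.ge)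
  obtain ⟨q, hq, hker⟩ := exists_hom hP _ hunc
  have h1 : q Kᶜ = ⊥ := (hker _).2 disjoint_compl_left
  have h2 : q K = ⊤ := by
    have : q (K ⊔ Kᶜ) = q K ⊔ q Kᶜ := map_sup q K Kᶜ
    rw [sup_compl_eq_top, map_top, h1, sup_bot_eq] at this
    exact this.symm
  have h3 := map_CB hI q hq α K hK
  rw [h2] at h3
  exact hα h3

lemma atom_le_sup {a b c : B} (ha : IsAtom a) : a ≤ b ⊔ c ↔ a ≤ b ∨ a ≤ c := by
  constructor
  · intro h
    by_contra hcon
    push Not at hcon
    have h1 := (ha.not_le_iff_disjoint).1 hcon.1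
    have h2 := (ha.not_le_iff_disjoint).1 hcon.2
    have h3 : Disjoint a (b ⊔ c) := Disjoint.sup_right h1 h2
    exact ha.1 (disjoint_self.1 (h3.mono_right h))
  · rintro (h | h)
    · exact h.trans le_sup_left
    · exact h.trans le_sup_right

lemma atom_le_sdiff {a b c : B} (ha : IsAtom a) (h : a ≤ b) (h' : ¬ a ≤ c) : a ≤ b \ c := by
  have : b ≤ c ⊔ b \ c := by rw [sup_sdiff_self_right]; exact le_sup_right
  rcases (atom_le_sup ha).1 (h.trans this) with h1 | h1
  · exact absurd h1 h'
  · exact h1

/-- the elements containing no element of the set `S` of atoms -/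
def noAtomIdeal (S : Set B) (hS : ∀ s ∈ S, IsAtom s) : Ideal (AsBoolRing B) :=
  mkIdeal {b : B | ∀ s ∈ S, ¬ s ≤ b} (fun s hs h => (hS s hs).1 (le_bot_iff.1 h))
    (fun a ha b hb s hs h => by
      rcases (atom_le_sup (hS s hs)).1 h with h | h
      · exact ha s hs h
      · exact hb s hs h)
    (fun a b hab hb s hs h => hb s hs (h.trans hab))

lemma mem_noAtomIdeal {S : Set B} {hS : ∀ s ∈ S, IsAtom s} {b : B} :
    Mem (noAtomIdeal S hS) b ↔ ∀ s ∈ S, ¬ s ≤ b := Iff.rfl

/-- a countable set of atoms has only countably many traces -/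
lemma countable_traces (hP : PropertyP B) (hat : ¬ {a : B | IsAtom a}.Countable) (S : Set B)
    (hS : ∀ s ∈ S, IsAtom s) (hc : S.Countable) :
    Countable (QuotientAlgebra B (noAtomIdeal S hS)) := by
  by_contra hcon
  rw [not_countable_iff] at hcon
  obtain ⟨q, hq, hker⟩ := exists_hom hP _ hcon
  apply hat
  refine (hc.image q).mono ?_
  intro x hx
  obtain ⟨b, rfl⟩ := hq x
  have h1 : ¬ Mem (noAtomIdeal S hS) b := by
    rw [← hker]; exact hx.1
  rw [mem_noAtomIdeal] at h1
  push Not at h1
  obtain ⟨s, hs, hsb⟩ := h1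
  refine ⟨s, hs, ?_⟩
  have h2 : q s ≤ q b := OrderHomClass.mono q hsb
  rcases hx.le_iff.1 h2 with h3 | h3
  · rw [hker, mem_noAtomIdeal] at h3
    exact absurd le_rfl (h3 s hs)
  · exact h3

end

end Pool.Agent.E8helper17.PQ
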