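import Mathlib

set_option autoImplicit false
set_option linter.all false

namespace Pool.Agent.E8helper17.PQ

open Set

/-- a quotient of a Boolean ring by an ideal is a Boolean ring -/
instance quotientBooleanRing {R : Type} [BooleanRing R] (I : Ideal R) : BooleanRing (R ⧸ I) where
  isIdempotentElem := by
    intro x
    obtain ⟨a, rfl⟩ := Ideal.Quotient.mk_surjective x
    show Ideal.Quotient.mk I a * Ideal.Quotient.mk I a = Ideal.Quotient.mk I a
    rw [← map_mul, BooleanRing.mul_self]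

/-- the quotient algebra `B/J`: the ideals of the Boolean algebra `B` are the ideals of the
associated Boolean ring -/
abbrev QuotientAlgebra (B : Type) [BooleanAlgebra B] (J : Ideal (AsBoolRing B)) : Type :=
  AsBoolAlg (AsBoolRing B ⧸ J)

/-- the quotient map `B → B/J` -/
def quotientHom {B : Type} [BooleanAlgebra B] (J : Ideal (AsBoolRing B)) :
    BoundedLatticeHom B (QuotientAlgebra B J) :=
  (RingHom.asBoolAlg (Ideal.Quotient.mk J)).comp
    ((OrderIso.asBoolAlgAsBoolRing B).symm : BoundedLatticeHom B (AsBoolAlg (AsBoolRing B)))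

/-- property (P): every uncountable quotient of `B` is isomorphic to `B` -/
def PropertyP (B : Type) [BooleanAlgebra B] : Prop :=
  ∀ J : Ideal (AsBoolRing B), Uncountable (QuotientAlgebra B J) →
    Nonempty (QuotientAlgebra B J ≃o B)

/-- `I β`, for `β` an ordinal, are the Cantor-Bendixson ideals of `B`: `I 0` is the zero ideal,
`b ∈ I (β + 1)` iff the class of `b` in `B / I β` is a finite join of atoms of `B / I β`, and at
limit ordinals one takes unions -/
structure CantorBendixsonIdeals (B : Type) [BooleanAlgebra B]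
    (I : Ordinal.{0} → Ideal (AsBoolRing B)) : Prop where
  zero : I 0 = ⊥
  succ : ∀ (β : Ordinal.{0}) (b : B), toBoolRing b ∈ I (β + 1) ↔
    ∃ s : Finset (QuotientAlgebra B (I β)), (∀ a ∈ s, IsAtom a) ∧
      quotientHom (I β) b = s.sup id
  limit : ∀ β : Ordinal.{0}, Order.IsSuccLimit β → ∀ b : B,
    (toBoolRing b ∈ I β ↔ ∃ γ < β, toBoolRing b ∈ I γ)

/-- `B` is superatomic with cardinal sequence `⟨κ, κ, …, 1⟩` of length `δ`: the quotients
`B / I β`, `β < δ`, of `B` by its Cantor-Bendixson ideals are infinite and have exactly `κ` atoms,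
the quotient `B / I δ` is finite and has exactly one atom, and `I β = B` for some `β` -/
def HasCardinalSequence (B : Type) [BooleanAlgebra B] (κ : Cardinal.{0}) (δ : Ordinal.{0}) :
    Prop :=
  ∃ I : Ordinal.{0} → Ideal (AsBoolRing B), CantorBendixsonIdeals B I ∧
    (∃ β, I β = ⊤) ∧
    (∀ β < δ, Infinite (QuotientAlgebra B (I β)) ∧
      Cardinal.mk {a : QuotientAlgebra B (I β) // IsAtom a} = κ) ∧
    Finite (QuotientAlgebra B (I δ)) ∧
    Cardinal.mk {a : QuotientAlgebra B (I δ) // IsAtom a} = 1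

/-! ### basic facts -/

section
variable {B : Type} [BooleanAlgebra B]

lemma quotientHom_apply (J : Ideal (AsBoolRing B)) (b : B) :
    quotientHom J b = toBoolAlg (Ideal.Quotient.mk J (toBoolRing b)) := rfl

lemma quotientHom_surjective (J : Ideal (AsBoolRing B)) :
    Function.Surjective (quotientHom J) := by
  intro x
  obtain ⟨a, ha⟩ := Ideal.Quotient.mk_surjective (ofBoolAlg x)
  refine ⟨ofBoolRing a, ?_⟩
  show toBoolAlg (Ideal.Quotient.mk J (toBoolRing (ofBoolRing a))) = x
  rw [toBoolRing_ofBoolRing, ha, toBoolAlg_ofBoolAlg]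

/-- membership of `b` in the ideal `J` -/
def Mem (J : Ideal (AsBoolRing B)) (b : B) : Prop := toBoolRing b ∈ J

lemma mem_iff {J : Ideal (AsBoolRing B)} {b : B} : Mem J b ↔ toBoolRing b ∈ J := Iff.rfl

lemma quotientHom_eq_bot {J : Ideal (AsBoolRing B)} {b : B} :
    quotientHom J b = ⊥ ↔ Mem J b := by
  rw [quotientHom_apply, Mem, ← Ideal.Quotient.eq_zero_iff_mem]
  constructor
  · intro h
    have := congrArg ofBoolAlg h
    simpa using this
  · intro h
    rw [h]; rfl

lemma quotientHom_sdiff (J : Ideal (AsBoolRing B)) (a b : B) :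
    quotientHom J (a \ b) = quotientHom J a \ quotientHom J b := map_sdiff' _ a b

lemma quotientHom_le {J : Ideal (AsBoolRing B)} {a b : B} :
    quotientHom J a ≤ quotientHom J b ↔ Mem J (a \ b) := by
  rw [← quotientHom_eq_bot, quotientHom_sdiff, sdiff_eq_bot_iff]

lemma mem_bot (J : Ideal (AsBoolRing B)) : Mem J ⊥ := J.zero_mem

lemma mem_down {J : Ideal (AsBoolRing B)} {a b : B} (h : a ≤ b) (hb : Mem J b) : Mem J a := by
  rw [← quotientHom_eq_bot] at hb ⊢
  rw [eq_bot_iff, ← hb]
  exact OrderHomClass.mono (quotientHom J) h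

lemma mem_sup {J : Ideal (AsBoolRing B)} {a b : B} (ha : Mem J a) (hb : Mem J b) :
    Mem J (a ⊔ b) := by
  rw [← quotientHom_eq_bot] at ha hb ⊢
  rw [map_sup, ha, hb, bot_sup_eq]

/-- ideals from sets of elements -/
def mkIdeal (S : Set B) (h0 : ⊥ ∈ S) (hs : ∀ a ∈ S, ∀ b ∈ S, a ⊔ b ∈ S)
    (hd : ∀ a b, a ≤ b → b ∈ S → a ∈ S) : Ideal (AsBoolRing B) where
  carrier := {x | ofBoolRing x ∈ S}
  zero_mem' := h0
  add_mem' := by
    intro a b ha hb
    show ofBoolRing (a + b) ∈ S
    rw [ofBoolRing_add]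
    exact hd _ _ symmDiff_le_sup (hs _ ha _ hb)
  smul_mem' := by
    intro c x hx
    show ofBoolRing (c * x) ∈ S
    rw [ofBoolRing_mul]
    exact hd _ _ inf_le_right hx

lemma mem_mkIdeal {S : Set B} {h0 : ⊥ ∈ S} {hs : ∀ a ∈ S, ∀ b ∈ S, a ⊔ b ∈ S}
    {hd : ∀ a b, a ≤ b → b ∈ S → a ∈ S} {b : B} : Mem (mkIdeal S h0 hs hd) b ↔ b ∈ S := Iff.rfl

lemma ideal_ext {J K : Ideal (AsBoolRing B)} (h : ∀ b : B, Mem J b ↔ Mem K b) : J = K := by
  ext x
  have := h (ofBoolRing x)
  rw [Mem, Mem, toBoolRing_ofBoolRing] at this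
  exact this

end

end Pool.Agent.E8helper17.PQ
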