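import Pool.Agent.E8helper17.PQ.CCC

set_option autoImplicit false
set_option linter.all false

namespace Pool.Agent.E8helper17.PQ

open Set

variable {B : Type} [BooleanAlgebra B]

lemma mem_zero {I : Ordinal.{0} → Ideal (AsBoolRing B)} (hI : CantorBendixsonIdeals B I) {b : B} :
    Mem (I 0) b ↔ b = ⊥ := by
  rw [hI.zero]
  constructor
  · intro h
    have := congrArg ofBoolRing (show (toBoolRing b : AsBoolRing B) = 0 from h)
    simpa using this
  · rintro rfl
    exact mem_bot _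

lemma isAtom_zero {I : Ordinal.{0} → Ideal (AsBoolRing B)} (hI : CantorBendixsonIdeals B I)
    {b : B} : IsAtom (quotientHom (I 0) b) ↔ IsAtom b := by
  have hle : ∀ a c : B, quotientHom (I 0) a ≤ quotientHom (I 0) c ↔ a ≤ c := fun a c => by
    rw [quotientHom_le, mem_zero hI, sdiff_eq_bot_iff]
  have hbot : ∀ a : B, quotientHom (I 0) a = ⊥ ↔ a = ⊥ := fun a => by
    rw [quotientHom_eq_bot, mem_zero hI]
  constructor
  · intro h
    refine ⟨fun hb => h.1 ((hbot b).2 hb), fun c hc => ?_⟩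
    rw [← hbot]
    refine h.2 _ (lt_of_le_not_ge ((hle _ _).2 hc.le) ?_)
    rw [hle]
    exact hc.not_ge
  · intro h
    refine ⟨fun hb => h.1 ((hbot b).1 hb), fun c hc => ?_⟩
    obtain ⟨c, rfl⟩ := quotientHom_surjective (I 0) c
    rw [hbot]
    refine h.2 _ (lt_of_le_not_ge ((hle _ _).1 hc.le) ?_)
    rw [← hle]
    exact hc.not_ge

lemma card_ideal {I : Ordinal.{0} → Ideal (AsBoolRing B)} (hI : CantorBendixsonIdeals B I)
    {α : Ordinal.{0}} (hα1 : α < Ordinal.omega 1)
    (hat : ∀ β < α, Cardinal.mk {a : QuotientAlgebra B (I β) // IsAtom a} = Cardinal.aleph 1) :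
    ∀ β ≤ α, Cardinal.mk {b : B | Mem (I β) b} ≤ Cardinal.aleph 1 := by
  classical
  intro β
  induction β using Ordinal.limitRecOn with
  | zero =>
    intro _
    have : {b : B | Mem (I 0) b} = {⊥} := by
      ext b
      exact mem_zero hI
    rw [this, Cardinal.mk_singleton]
    exact Cardinal.one_le_aleph0.trans (Cardinal.aleph0_le_aleph 1)
  | limit β hβ ih =>
    intro hβα
    have hne : (Iio β).Nonempty := ⟨0, hβ.bot_lt⟩
    obtain ⟨g, hg⟩ := (countable_Iio_ordinal (hβα.trans_lt hα1)).exists_eq_range hne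
    have hgl : ∀ n, g n < β := fun n => by
      have : g n ∈ Iio β := by rw [hg]; exact mem_range_self n
      exact this
    have hU : {b : B | Mem (I β) b} = ⋃ n, {b : B | Mem (I (g n)) b} := by
      ext b
      rw [mem_iUnion]
      constructor
      · intro h
        obtain ⟨γ, hγ, hb⟩ := (hI.limit β hβ b).1 h
        have : γ ∈ range g := by rw [← hg]; exact hγ
        obtain ⟨n, rfl⟩ := this
        exact ⟨n, hb⟩
      · rintro ⟨n, hn⟩
        exact (hI.limit β hβ b).2 ⟨g n, hgl n, hn⟩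
    rw [hU]
    refine (Cardinal.mk_iUnion_le _).trans ?_
    have h1 : (⨆ n, Cardinal.mk {b : B | Mem (I (g n)) b}) ≤ Cardinal.aleph 1 :=
      ciSup_le' fun n => ih _ (hgl n) ((hgl n).le.trans hβα)
    calc Cardinal.mk ℕ * (⨆ n, Cardinal.mk {b : B | Mem (I (g n)) b})
        ≤ Cardinal.aleph 1 * Cardinal.aleph 1 := by
          refine mul_le_mul' ?_ h1
          rw [Cardinal.mk_nat]
          exact Cardinal.aleph0_le_aleph 1
      _ = Cardinal.aleph 1 := Cardinal.mul_eq_self (Cardinal.aleph0_le_aleph 1)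
  | add_one β ih =>
    intro hβα
    have hβ : β < α := lt_of_lt_of_le (Order.lt_succ β) hβα
    let A := {a : QuotientAlgebra B (I β) // IsAtom a}
    let T := {b : B | Mem (I β) b}
    have hA : Cardinal.mk A = Cardinal.aleph 1 := hat β hβ
    have hrep : ∀ s : Finset A, ∃ r : B, quotientHom (I β) r = s.sup (fun a => a.1) := fun s =>
      quotientHom_surjective (I β) _
    choose r hr using hrep
    let F : Finset A × T → B := fun p => symmDiff (r p.1) p.2.1
    have hsub : {b : B | Mem (I (β + 1)) b} ⊆ range F := by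
      intro b hb
      obtain ⟨s, hs, hsb⟩ := (hI.succ β b).1 hb
      let s' : Finset A := s.subtype IsAtom
      have hs' : s'.sup (fun a => a.1) = s.sup id := by
        apply le_antisymm
        · refine Finset.sup_le fun a ha => ?_
          exact Finset.le_sup (f := id) (Finset.mem_subtype.1 ha)
        · refine Finset.sup_le fun a ha => ?_
          have hm : (⟨a, hs a ha⟩ : A) ∈ s' := Finset.mem_subtype.2 ha
          exact Finset.le_sup (f := fun a : A => a.1) hm
      have h1 : quotientHom (I β) (r s') = quotientHom (I β) b := by rw [hr, hs', hsb]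
      have h2 := quotientHom_eq_iff.1 h1
      have h3 : Mem (I β) (symmDiff (r s') b) := by
        rw [symmDiff]
        exact mem_sup h2.1 h2.2
      refine ⟨(s', ⟨symmDiff (r s') b, h3⟩), ?_⟩
      show symmDiff (r s') (symmDiff (r s') b) = b
      exact symmDiff_symmDiff_cancel_left (r s') b
    haveI : Infinite A := by
      rw [Cardinal.infinite_iff, hA]; exact Cardinal.aleph0_le_aleph 1
    calc Cardinal.mk {b : B | Mem (I (β + 1)) b} ≤ Cardinal.mk (range F) :=
          Cardinal.mk_le_mk_of_subset hsub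
      _ ≤ Cardinal.mk (Finset A × T) := Cardinal.mk_range_le
      _ = Cardinal.mk (Finset A) * Cardinal.mk T := by rw [Cardinal.mk_prod, Cardinal.lift_id, Cardinal.lift_id]
      _ ≤ Cardinal.aleph 1 * Cardinal.aleph 1 := by
          refine mul_le_mul' ?_ (ih hβ.le)
          rw [Cardinal.mk_finset_of_infinite, hA]
      _ = Cardinal.aleph 1 := Cardinal.mul_eq_self (Cardinal.aleph0_le_aleph 1)

/-- a finite Boolean algebra with one atom has two elements -/
lemma two_elements {Q : Type} [BooleanAlgebra Q] [Finite Q]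
    (h : Cardinal.mk {a : Q // IsAtom a} = 1) (x : Q) : x = ⊥ ∨ x = ⊤ := by
  rw [Cardinal.eq_one_iff_unique] at h
  obtain ⟨hsub, hne⟩ := h
  by_contra hcon
  push Not at hcon
  have h1 : xᶜ ≠ ⊥ := fun h => hcon.2 (compl_eq_bot.1 h)
  obtain ⟨a, ha, hax⟩ := (IsAtomic.eq_bot_or_exists_atom_le x).resolve_left hcon.1
  obtain ⟨b, hb, hbx⟩ := (IsAtomic.eq_bot_or_exists_atom_le xᶜ).resolve_left h1
  have hab : (⟨a, ha⟩ : {a : Q // IsAtom a}) = ⟨b, hb⟩ := Subsingleton.elim _ _
  have hab' : a = b := congrArg Subtype.val hab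
  rw [← hab'] at hbx
  have : a ≤ x ⊓ xᶜ := le_inf hax hbx
  rw [inf_compl_eq_bot] at this
  exact ha.1 (le_bot_iff.1 this)

/-- every set of pairwise incompatible elements of `P` is countable -/
def CountableChainCondition (P : Type) [Preorder P] : Prop :=
  ∀ W : Set P, (∀ p ∈ W, ∀ q ∈ W, p ≠ q → ¬ ∃ r, r ≤ p ∧ r ≤ q) → W.Countable

/-- `G` is a filter of `P` which meets all the sets `D i` -/
def IsGeneric {P : Type} [Preorder P] {ι : Type} (D : ι → Set P) (G : Set P) : Prop :=
  (∀ p ∈ G, ∀ q, p ≤ q → q ∈ G) ∧ (∀ p ∈ G, ∀ q ∈ G, ∃ r ∈ G, r ≤ p ∧ r ≤ q) ∧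
    ∀ i, (G ∩ D i).Nonempty

/-- `D` is a family of at most `ℵ₁` dense subsets of `P` -/
def DenseFamily {P : Type} [Preorder P] {ι : Type} (D : ι → Set P) : Prop :=
  Cardinal.mk ι ≤ Cardinal.aleph 1 ∧ ∀ i p, ∃ q ∈ D i, q ≤ p

lemma atoms_card {I : Ordinal.{0} → Ideal (AsBoolRing B)}
    (hI : CantorBendixsonIdeals B I) {α : Ordinal.{0}} (h0 : 0 < α)
    (hat : ∀ β < α, Cardinal.mk {a : QuotientAlgebra B (I β) // IsAtom a} = Cardinal.aleph 1) :
    Nonempty (Om1 ↪ {a : B // IsAtom a}) := by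
  have hcard : Cardinal.mk Om1 ≤ Cardinal.mk {a : B // IsAtom a} := by
    rw [mk_Om1, ← hat 0 h0]
    have hrep : ∀ a : {a : QuotientAlgebra B (I 0) // IsAtom a}, ∃ b : {b : B // IsAtom b},
        quotientHom (I 0) b.1 = a.1 := by
      rintro ⟨a, ha⟩
      obtain ⟨b, rfl⟩ := quotientHom_surjective (I 0) a
      exact ⟨⟨b, (isAtom_zero hI).1 ha⟩, rfl⟩
    choose f hf using hrep
    refine Cardinal.mk_le_of_injective (f := f) ?_
    intro a b h
    apply Subtype.ext
    rw [← hf, ← hf, h]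
  exact (Cardinal.le_def _ _).1 hcard

/-- the poset of finite approximations is ccc, and a filter meeting certain `ℵ₁` dense sets gives
a sparse uncountable set of atoms -/
lemma exists_sparse {I : Ordinal.{0} → Ideal (AsBoolRing B)}
    (hI : CantorBendixsonIdeals B I) (hP : PropertyP B) {α : Ordinal.{0}} (h0 : 0 < α)
    (hα : ¬ Mem (I α) ⊤) (hα1 : α < Ordinal.omega 1)
    (hat : ∀ β < α, Cardinal.mk {a : QuotientAlgebra B (I β) // IsAtom a} = Cardinal.aleph 1) :
    CountableChainCondition (Cond (I α)) ∧ ∃ (ι : Type) (D : ι → Set (Cond (I α))),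
      DenseFamily D ∧ ∀ G, IsGeneric D G →
        ∃ S : Set B, (∀ s ∈ S, IsAtom s) ∧ ¬ S.Countable ∧
          ∀ K, Mem (I α) K → {s ∈ S | s ≤ K}.Finite := by
  classical
  obtain ⟨at'⟩ := atoms_card hI h0 hat
  let at_ : Om1 → B := fun ξ => (at' ξ).1
  have hatA : ∀ ξ, IsAtom (at_ ξ) := fun ξ => (at' ξ).2
  have hatI : Function.Injective at_ := fun ξ ζ h => at'.injective (Subtype.ext h)
  have hatc : ¬ {a : B | IsAtom a}.Countable := by
    intro hc
    apply uncountable_univ_Om1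
    have hm : MapsTo at_ univ {a : B | IsAtom a} := fun ξ _ => hatA ξ
    exact hm.countable_of_injOn hatI.injOn hc
  let D : {b : B | Mem (I α) b} ⊕ Om1 → Set (Cond (I α)) := fun i =>
    match i with
    | Sum.inl K => {p | K.1 ≤ p.1.2}
    | Sum.inr ξ => {p | ∃ ζ, ξ < ζ ∧ at_ ζ ∈ p.1.1}
  refine ⟨ccc hI hP hatc hα hα1, {b : B | Mem (I α) b} ⊕ Om1, D, ⟨?_, ?_⟩, ?_⟩
  · rw [Cardinal.mk_sum, Cardinal.lift_id, Cardinal.lift_id, mk_Om1]
    calc _ ≤ Cardinal.aleph 1 + Cardinal.aleph 1 :=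
          add_le_add (card_ideal hI hα1 hat α le_rfl) le_rfl
      _ = Cardinal.aleph 1 := Cardinal.add_eq_self (Cardinal.aleph0_le_aleph 1)
  · rintro (K | ξ) p
    · refine ⟨⟨(p.1.1, p.1.2 ⊔ K.1), p.2.1, mem_sup p.2.2 K.2⟩, ?_, ?_⟩
      · show K.1 ≤ p.1.2 ⊔ K.1
        exact le_sup_right
      · exact ⟨Finset.Subset.refl _, le_sup_left, fun a ha h => absurd ha h⟩
    · have hc : {ζ : Om1 | at_ ζ ≤ p.1.2}.Countable := by
        have hm : MapsTo at_ {ζ : Om1 | at_ ζ ≤ p.1.2} (Iic p.1.2) := fun ζ hζ => hζ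
        exact hm.countable_of_injOn hatI.injOn (countable_Iic_of_mem hI hP hα p.2.2)
      have hu := uncountable_inter_Ioi uncountable_univ_Om1 ξ
      have hex : ∃ ζ, ξ < ζ ∧ ¬ at_ ζ ≤ p.1.2 := by
        by_contra hcon
        push Not at hcon
        exact hu (hc.mono fun ζ hζ => hcon ζ hζ.2)
      obtain ⟨ζ, hζ, hζp⟩ := hex
      refine ⟨⟨(insert (at_ ζ) p.1.1, p.1.2), ?_, p.2.2⟩, ?_, ?_⟩
      · intro a ha
        rcases Finset.mem_insert.1 ha with rfl | ha
        · exact hatA ζ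
        · exact p.2.1 a ha
      · exact ⟨ζ, hζ, Finset.mem_insert_self _ _⟩
      · refine ⟨Finset.subset_insert _ _, le_rfl, ?_⟩
        intro a ha hap
        rcases Finset.mem_insert.1 ha with rfl | ha
        · exact hζp
        · exact absurd ha hap
  rintro G ⟨hG1, hG2, hG3⟩
  refine ⟨{a | ∃ p ∈ G, a ∈ p.1.1}, ?_, ?_, ?_⟩
  · rintro a ⟨p, _, ha⟩
    exact p.2.1 a ha
  · intro hc
    have hZ : {ζ : Om1 | ∃ p ∈ G, at_ ζ ∈ p.1.1}.Countable := by
      have hm : MapsTo at_ {ζ : Om1 | ∃ p ∈ G, at_ ζ ∈ p.1.1} {a | ∃ p ∈ G, a ∈ p.1.1} :=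
        fun ζ hζ => hζ
      exact hm.countable_of_injOn hatI.injOn hc
    apply uncountable_univ_Om1
    have hsub : (univ : Set Om1) ⊆ ⋃ ζ ∈ {ζ : Om1 | ∃ p ∈ G, at_ ζ ∈ p.1.1}, Iic ζ := by
      intro ξ _
      obtain ⟨p, hp, ζ, hζ, hζp⟩ := hG3 (Sum.inr ξ)
      exact mem_iUnion₂.2 ⟨ζ, ⟨p, hp, hζp⟩, hζ.le⟩
    exact (hZ.biUnion fun ζ _ => countable_Iic_Om1 ζ).mono hsub
  · intro K hK
    obtain ⟨p, hp, hKp⟩ := hG3 (Sum.inl ⟨K, hK⟩)
    refine p.1.1.finite_toSet.subset ?_
    rintro a ⟨⟨q, hq, haq⟩, haK⟩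
    obtain ⟨r, _, hrp, hrq⟩ := hG2 p hp q hq
    by_contra hap
    exact hrp.2.2 a (hrq.1 haq) hap (haK.trans hKp)

lemma not_mem_top {I : Ordinal.{0} → Ideal (AsBoolRing B)} {α : Ordinal.{0}}
    (hone : Cardinal.mk {a : QuotientAlgebra B (I α) // IsAtom a} = 1) : ¬ Mem (I α) ⊤ := by
  intro h
  rw [Cardinal.eq_one_iff_unique] at hone
  obtain ⟨_, ⟨a, ha⟩⟩ := hone
  obtain ⟨b, rfl⟩ := quotientHom_surjective (I α) a
  exact ha.1 (quotientHom_eq_bot.2 (mem_down le_top h))

/-- the Cantor-Bendixson ideals are unique -/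
lemma CantorBendixsonIdeals.unique {I J : Ordinal.{0} → Ideal (AsBoolRing B)}
    (hI : CantorBendixsonIdeals B I) (hJ : CantorBendixsonIdeals B J) : I = J := by
  funext β
  induction β using Ordinal.limitRecOn with
  | zero => rw [hI.zero, hJ.zero]
  | add_one β ih =>
    refine ideal_ext fun b => ?_
    rw [Mem, Mem, hI.succ, hJ.succ, ih]
  | limit β hβ ih =>
    refine ideal_ext fun b => ?_
    rw [Mem, Mem, hI.limit β hβ, hJ.limit β hβ]
    constructor
    · rintro ⟨γ, hγ, h⟩
      exact ⟨γ, hγ, by rw [← ih γ hγ]; exact h⟩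
    · rintro ⟨γ, hγ, h⟩
      exact ⟨γ, hγ, by rw [ih γ hγ]; exact h⟩

/-- no uncountable set of atoms is finite below all elements of rank less than `α` -/
theorem no_sparse (B : Type) [BooleanAlgebra B] (α : Ordinal.{0})
    (h1 : 1 < α) {I : Ordinal.{0} → Ideal (AsBoolRing B)} (hI : CantorBendixsonIdeals B I)
    (hlow : ∀ β < α, Infinite (QuotientAlgebra B (I β)) ∧
      Cardinal.mk {a : QuotientAlgebra B (I β) // IsAtom a} = Cardinal.aleph 1)
    (hfin : Finite (QuotientAlgebra B (I α)))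
    (hone : Cardinal.mk {a : QuotientAlgebra B (I α) // IsAtom a} = 1)
    (hP : PropertyP B) (S : Set B) (hS : ∀ s ∈ S, IsAtom s) (hSu : ¬ S.Countable)
    (hSf : ∀ K, Mem (I α) K → {s ∈ S | s ≤ K}.Finite) : False := by
  classical
  haveI := hfin
  have hα : ¬ Mem (I α) ⊤ := not_mem_top hone
  have hdich : ∀ b : B, Mem (I α) b ∨ Mem (I α) bᶜ := by
    intro b
    rcases two_elements hone (quotientHom (I α) b) with h | h
    · exact Or.inl (quotientHom_eq_bot.1 h)
    · right
      rw [← quotientHom_eq_bot, map_compl', h, compl_top]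
  have h0 : (0 : Ordinal.{0}) < α := zero_lt_one.trans h1
  -- the classes of the elements of `S` are atoms
  have hatom : ∀ a ∈ S, IsAtom (quotientHom (noAtomIdeal S hS) a) := by
    intro a ha
    refine ⟨?_, ?_⟩
    · rw [Ne, quotientHom_eq_bot, mem_noAtomIdeal]
      intro h
      exact h a ha le_rfl
    · intro c hc
      obtain ⟨c, rfl⟩ := quotientHom_surjective (noAtomIdeal S hS) c
      by_cases hac : a ≤ c
      · exact absurd (OrderHomClass.mono (quotientHom (noAtomIdeal S hS)) hac) hc.not_ge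
      · have h3 := ((hS a ha).not_le_iff_disjoint).1 hac
        have h4 : quotientHom (noAtomIdeal S hS) (a ⊓ c) = ⊥ := by
          rw [disjoint_iff.1 h3, map_bot]
        rw [map_inf, inf_eq_right.2 hc.le] at h4
        exact h4
  have hunc : Uncountable (QuotientAlgebra B (noAtomIdeal S hS)) := by
    rw [← not_countable_iff]
    intro hc
    apply hSu
    have hm : MapsTo (quotientHom (noAtomIdeal S hS)) S univ := fun _ _ => mem_univ _
    refine hm.countable_of_injOn ?_ (countable_univ_iff.2 hc)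
    intro a ha b hb hab
    by_contra hne
    have h2 := (quotientHom_eq_iff.1 hab).1
    rw [mem_noAtomIdeal] at h2
    refine h2 a ha (atom_le_sdiff (hS a ha) le_rfl ?_)
    intro hle
    rcases (hS b hb).le_iff.1 hle with h3 | h3
    · exact (hS a ha).1 h3
    · exact hne h3
  have hmain : ∀ b : B, Mem (I α) b → ∃ s : Finset (QuotientAlgebra B (noAtomIdeal S hS)),
      (∀ a ∈ s, IsAtom a) ∧ quotientHom (noAtomIdeal S hS) b = s.sup id := by
    intro b hb
    have hf := hSf b hb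
    refine ⟨hf.toFinset.image (quotientHom (noAtomIdeal S hS)), ?_, ?_⟩
    · intro x hx
      obtain ⟨a, ha, rfl⟩ := Finset.mem_image.1 hx
      exact hatom a ((hf.mem_toFinset).1 ha).1
    · rw [Finset.sup_image]
      have h3 : quotientHom (noAtomIdeal S hS) (hf.toFinset.sup id) =
          hf.toFinset.sup (id ∘ quotientHom (noAtomIdeal S hS)) := by
        rw [map_finset_sup]; rfl
      rw [← h3, quotientHom_eq_iff, mem_noAtomIdeal, mem_noAtomIdeal]
      constructor
      · intro a ha hle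
        have hab : a ≤ b := hle.trans sdiff_le
        have h4 : a ≤ hf.toFinset.sup id :=
          Finset.le_sup (f := id) ((hf.mem_toFinset).2 ⟨ha, hab⟩)
        have h5 : a ≤ (b \ hf.toFinset.sup id) ⊓ hf.toFinset.sup id := le_inf hle h4
        rw [inf_comm, inf_sdiff_self_right] at h5
        exact (hS a ha).1 (le_bot_iff.1 h5)
      · intro a ha hle
        have h4 : hf.toFinset.sup id ≤ b := Finset.sup_le fun x hx =>
          ((hf.mem_toFinset).1 hx).2
        rw [sdiff_eq_bot_iff.2 h4] at hle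
        exact (hS a ha).1 (le_bot_iff.1 hle)
  obtain ⟨e⟩ := hP _ hunc
  have hB1 : ∀ x : QuotientAlgebra B (noAtomIdeal S hS), (∃ s : Finset (QuotientAlgebra B
      (noAtomIdeal S hS)), (∀ a ∈ s, IsAtom a) ∧ x = s.sup id) → Mem (I (0 + 1)) (e x) := by
    rintro x ⟨s, hs, rfl⟩
    refine (hI.succ 0 (e (s.sup id))).2 ⟨s.image (fun a => quotientHom (I 0) (e a)), ?_, ?_⟩
    · intro y hy
      obtain ⟨a, ha, rfl⟩ := Finset.mem_image.1 hy
      exact (isAtom_zero hI).2 ((OrderIso.isAtom_iff e a).2 (hs a ha))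
    · rw [Finset.sup_image, map_finset_sup, map_finset_sup]
      rfl
  have hB2 : ∀ y : B, Mem (I (0 + 1)) y ∨ Mem (I (0 + 1)) yᶜ := by
    intro y
    obtain ⟨b, hb⟩ := quotientHom_surjective (noAtomIdeal S hS) (e.symm y)
    rcases hdich b with h | h
    · left
      have := hB1 _ (hmain b h)
      rw [hb, e.apply_symm_apply] at this
      exact this
    · right
      have := hB1 _ (hmain bᶜ h)
      have h5 : e (e.symm y)ᶜ = (e (e.symm y))ᶜ := map_compl' e _
      rw [map_compl' (quotientHom (noAtomIdeal S hS)), hb, h5, e.apply_symm_apply] at this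
      exact this
  have hfin1 : Finite (QuotientAlgebra B (I (0 + 1))) := by
    refine Finite.of_surjective (fun c : Bool => if c then (⊤ : QuotientAlgebra B (I (0 + 1)))
      else ⊥) ?_
    intro q
    obtain ⟨b, rfl⟩ := quotientHom_surjective (I (0 + 1)) q
    rcases hB2 b with h | h
    · refine ⟨false, ?_⟩
      simp only [Bool.false_eq_true, if_false]
      exact (quotientHom_eq_bot.2 h).symm
    · refine ⟨true, ?_⟩
      simp only [if_true]
      rw [← quotientHom_eq_bot, map_compl', compl_eq_bot] at h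
      exact h.symm
  rw [zero_add] at hfin1
  have := (hlow 1 h1).1
  exact not_finite (QuotientAlgebra B (I 1))

/-- with every algebra `B` as in Q2 comes a ccc poset and `ℵ₁` dense sets which no filter meets -/
theorem q2_poset (B : Type) [BooleanAlgebra B] (α : Ordinal.{0})
    (h1 : 1 < α) (hα1 : α < Ordinal.omega 1)
    (hB : HasCardinalSequence B (Cardinal.aleph 1) α) (hP : PropertyP B)
    {J : Ordinal.{0} → Ideal (AsBoolRing B)} (hJ : CantorBendixsonIdeals B J) :
    CountableChainCondition (Cond (J α)) ∧ ∃ (ι : Type) (D : ι → Set (Cond (J α))),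
      DenseFamily D ∧ ¬ ∃ G, IsGeneric D G := by
  obtain ⟨I, hI, _, hlow, hfin, hone⟩ := hB
  obtain rfl : I = J := hI.unique hJ
  obtain ⟨hc, ι, D, hD, hG⟩ := exists_sparse hI hP (zero_lt_one.trans h1) (not_mem_top hone) hα1
    (fun β hβ => (hlow β hβ).2)
  refine ⟨hc, ι, D, hD, ?_⟩
  rintro ⟨G, hGD⟩
  obtain ⟨S, hS, hSu, hSf⟩ := hG G hGD
  exact no_sparse B α h1 hI hlow hfin hone hP S hS hSu hSf

theorem q2 (hMA : MartinsAxiomAlephOne) (B : Type) [BooleanAlgebra B] (α : Ordinal.{0})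
    (h1 : 1 < α) (hα1 : α < Ordinal.omega 1)
    (hB : HasCardinalSequence B (Cardinal.aleph 1) α) : ¬ PropertyP B := by
  intro hP
  have hB' := hB
  obtain ⟨I, hI, _, _, _, hone⟩ := hB'
  obtain ⟨hc, ι, D, hD, hG⟩ := q2_poset B α h1 hα1 hB hP hI
  haveI : Nonempty (Cond (I α)) := ⟨⟨(∅, ⊥), by simp, mem_bot _⟩⟩
  exact hG (hMA (Cond (I α)) hc ι D hD.1 hD.2)

end Pool.Agent.E8helper17.PQ
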