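import Pool.Agent.E8helper17.PQ.Comb

set_option autoImplicit false
set_option linter.all false

namespace Pool.Agent.E8helper17.PQ

open Set

variable {B : Type} [BooleanAlgebra B]

/-- pairwise disjoint finite sets of atoms -/
structure Fam (A : Om1 → Finset B) : Prop where
  atom : ∀ ζ, ∀ a ∈ A ζ, IsAtom a
  disj : ∀ ζ ξ, ζ ≠ ξ → Disjoint (A ζ) (A ξ)

/-- `K ξ` contains an element of `A ζ` for `ζ < ξ` in `E` -/
def Inc (A : Om1 → Finset B) (E : Set Om1) (K : Om1 → B) : Prop :=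
  ∀ ξ ∈ E, ∀ ζ ∈ E, ζ < ξ → ∃ a ∈ A ζ, a ≤ K ξ

lemma Inc.mono {A : Om1 → Finset B} {E E' : Set Om1} {K : Om1 → B} (h : Inc A E K)
    (hE : E' ⊆ E) : Inc A E' K := fun ξ hξ ζ hζ => h ξ (hE hξ) ζ (hE hζ)

/-- configurations with all the `K ξ` in the ideal `J` -/
def Conf (A : Om1 → Finset B) (J : Ideal (AsBoolRing B)) : Prop :=
  ∃ E : Set Om1, ¬ E.Countable ∧ ∃ K : Om1 → B, (∀ ξ ∈ E, Mem J (K ξ)) ∧ Inc A E K

/-- `b` is modulo `J` a join of at most `m` atoms -/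
def AtMost (J : Ideal (AsBoolRing B)) (m : ℕ) (b : B) : Prop :=
  ∃ s : Finset (QuotientAlgebra B J), s.card ≤ m ∧ (∀ a ∈ s, IsAtom a) ∧
    quotientHom J b = s.sup id

def Conf' (A : Om1 → Finset B) (J : Ideal (AsBoolRing B)) (m : ℕ) : Prop :=
  ∃ E : Set Om1, ¬ E.Countable ∧ ∃ K : Om1 → B, (∀ ξ ∈ E, AtMost J m (K ξ)) ∧ Inc A E K

/-- the heart of the matter: uncountably many `K γ` agree below `δ` -/
lemma stabilize (hP : PropertyP B) (hat : ¬ {a : B | IsAtom a}.Countable) {A : Om1 → Finset B}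
    (hA : Fam A) {E : Set Om1} (hE : ¬ E.Countable) {K : Om1 → B} (hinc : Inc A E K)
    (hcK : ∀ ξ ∈ E, (Iic (K ξ)).Countable) (δ : Om1) :
    ∃ (D : B) (E' : Set Om1), ¬ E'.Countable ∧ E' ⊆ E ∩ Ioi δ ∧ (∀ γ ∈ E', D ≤ K γ) ∧
      ∀ ζ ∈ E, ζ < δ → ∃ a ∈ A ζ, a ≤ D := by
  classical
  let S : Set B := {a | ∃ ζ < δ, a ∈ A ζ}
  have hS : ∀ s ∈ S, IsAtom s := by
    rintro s ⟨ζ, _, hs⟩
    exact hA.atom ζ s hs
  have hSc : S.Countable := by
    have : S = ⋃ ζ ∈ Iio δ, (A ζ : Set B) := by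
      ext a
      simp only [S, mem_setOf_eq, mem_iUnion, mem_Iio, Finset.mem_coe, exists_prop]
    rw [this]
    exact (countable_Iio_Om1 δ).biUnion fun ζ _ => (A ζ).finite_toSet.countable
  haveI := countable_traces hP hat S hS hSc
  obtain ⟨t, ht⟩ := pigeon (uncountable_inter_Ioi hE δ)
    (fun γ => quotientHom (noAtomIdeal S hS) (K γ))
  obtain ⟨γ₀, hγ₀⟩ := nonempty_of_uncountable ht
  haveI : Countable (Iic (K γ₀)) := (hcK γ₀ hγ₀.1.1).to_subtype
  obtain ⟨D, hD⟩ := pigeon ht (fun γ => (⟨K γ ⊓ K γ₀, inf_le_right⟩ : Iic (K γ₀)))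
  refine ⟨D.1, _, hD, ?_, ?_, ?_⟩
  · intro γ hγ
    exact hγ.1.1
  · rintro γ ⟨_, hγ⟩
    have h1 : K γ ⊓ K γ₀ = D.1 := congrArg Subtype.val hγ
    rw [← h1]
    exact inf_le_left
  · intro ζ hζ hlt
    obtain ⟨γ, hγ⟩ := nonempty_of_uncountable hD
    have hγδ : δ < γ := hγ.1.1.2
    obtain ⟨a, ha, haK⟩ := hinc γ hγ.1.1.1 ζ hζ (hlt.trans hγδ)
    refine ⟨a, ha, ?_⟩
    have haS : a ∈ S := ⟨ζ, hlt, ha⟩
    have h2 : quotientHom (noAtomIdeal S hS) (K γ) = quotientHom (noAtomIdeal S hS) (K γ₀) := by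
      rw [hγ.1.2, hγ₀.2]
    have h3 := (quotientHom_eq_iff.1 h2).1
    rw [mem_noAtomIdeal] at h3
    have h4 : a ≤ K γ₀ := by
      by_contra hcon
      exact h3 a haS (atom_le_sdiff (hS a haS) haK hcon)
    have h1 : K γ ⊓ K γ₀ = D.1 := congrArg Subtype.val hγ.2
    rw [← h1]
    exact le_inf haK h4

/-- sub-joins of atoms -/
lemma sub_join {J : Ideal (AsBoolRing B)} (s : Finset (QuotientAlgebra B J))
    (hs : ∀ a ∈ s, IsAtom a) (k : QuotientAlgebra B J) (hk : k ≤ s.sup id) :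
    ∃ t ⊆ s, k = t.sup id := by
  classical
  refine ⟨s.filter (fun a => a ≤ k), Finset.filter_subset _ _, ?_⟩
  apply le_antisymm
  · have h1 : k = k ⊓ s.sup id := (inf_eq_left.2 hk).symm
    rw [Finset.sup_inf_distrib_left] at h1
    calc k = s.sup (fun a => k ⊓ id a) := h1
      _ ≤ _ := ?_
    refine Finset.sup_le fun a ha => ?_
    have h2 : k ⊓ a ≤ a := inf_le_right
    rcases (hs a ha).le_iff.1 h2 with h3 | h3
    · show k ⊓ a ≤ _
      rw [h3]; exact bot_le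
    · show k ⊓ a ≤ _
      rw [h3]
      refine Finset.le_sup (f := id) (Finset.mem_filter.2 ⟨ha, ?_⟩)
      rw [← h3]; exact inf_le_left
  · refine Finset.sup_le fun a ha => ?_
    exact (Finset.mem_filter.1 ha).2

lemma no_conf {I : Ordinal.{0} → Ideal (AsBoolRing B)} (hI : CantorBendixsonIdeals B I)
    (hP : PropertyP B) (hat : ¬ {a : B | IsAtom a}.Countable) {α : Ordinal.{0}}
    (hα : ¬ Mem (I α) ⊤) (hα1 : α < Ordinal.omega 1) (hmono : ∀ β γ, γ ≤ β → I γ ≤ I β)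
    {A : Om1 → Finset B} (hA : Fam A) : ∀ ρ ≤ α, ¬ Conf A (I ρ) := by
  classical
  intro ρ
  induction ρ using Ordinal.limitRecOn with
  | zero =>
    rintro _ ⟨E, hE, K, hK, hinc⟩
    obtain ⟨ζ, hζ⟩ := nonempty_of_uncountable hE
    obtain ⟨ξ, hξ⟩ := nonempty_of_uncountable (uncountable_inter_Ioi hE ζ)
    obtain ⟨a, ha, haK⟩ := hinc ξ hξ.1 ζ hζ hξ.2
    have h1 := hK ξ hξ.1
    rw [hI.zero] at h1
    have h2 : K ξ = ⊥ := by
      have := congrArg ofBoolRing (show (toBoolRing (K ξ) : AsBoolRing B) = 0 from h1)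
      simpa using this
    rw [h2] at haK
    exact (hA.atom ζ a ha).1 (le_bot_iff.1 haK)
  | limit ρ hρ ih =>
    rintro hρα ⟨E, hE, K, hK, hinc⟩
    have hch : ∀ ξ : Om1, ∃ γ : Iio ρ, ξ ∈ E → Mem (I γ.1) (K ξ) := by
      intro ξ
      by_cases hξ : ξ ∈ E
      · obtain ⟨γ, hγ, h⟩ := (hI.limit ρ hρ (K ξ)).1 (hK ξ hξ)
        exact ⟨⟨γ, hγ⟩, fun _ => h⟩
      · exact ⟨⟨0, hρ.bot_lt⟩, fun h => absurd h hξ⟩
    choose g hg using hch
    haveI : Countable (Iio ρ) := (countable_Iio_ordinal (hρα.trans_lt hα1)).to_subtype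
    obtain ⟨γ, hγ⟩ := pigeon hE g
    refine ih γ.1 γ.2 ((le_of_lt γ.2).trans hρα) ⟨_, hγ, K, ?_, hinc.mono fun ξ hξ => hξ.1⟩
    rintro ξ ⟨hξ, hgξ⟩
    rw [← hgξ]
    exact hg ξ hξ
  | add_one σ ih =>
    intro hσα
    have hσ : σ ≤ α := (Order.le_succ σ).trans hσα
    have hno := ih hσ
    have hcount : ∀ K : B, Mem (I (σ + 1)) K → (Iic K).Countable := fun K hK =>
      countable_Iic_of_mem hI hP hα (hmono _ _ hσα hK)
    have key : ∀ m, ¬ Conf' A (I σ) m := by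
      intro m
      induction m with
      | zero =>
        rintro ⟨E, hE, K, hK, hinc⟩
        refine hno ⟨E, hE, K, ?_, hinc⟩
        intro ξ hξ
        obtain ⟨s, hs, _, h⟩ := hK ξ hξ
        rw [Finset.card_eq_zero.1 (Nat.le_zero.1 hs), Finset.sup_empty, quotientHom_eq_bot] at h
        exact h
      | succ m ihm =>
        rintro ⟨E, hE, K, hK, hinc⟩
        have hcK : ∀ ξ ∈ E, (Iic (K ξ)).Countable := by
          intro ξ hξ
          obtain ⟨s, _, hs, h⟩ := hK ξ hξ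
          exact hcount _ ((hI.succ σ (K ξ)).2 ⟨s, hs, h⟩)
        choose D E' hE'1 hE'2 hE'3 hE'4 using stabilize hP hat hA hE hinc hcK
        have hincD : Inc A E D := fun ξ hξ ζ hζ hlt => hE'4 ξ ζ hζ hlt
        have hG : ∃ δ ∈ E, ¬ AtMost (I σ) m (D δ) := by
          by_contra hcon
          push Not at hcon
          exact ihm ⟨E, hE, D, hcon, hincD⟩
        obtain ⟨δ, hδE, hδ⟩ := hG
        have hsub : ∀ γ ∈ E' δ, Mem (I σ) (K γ \ D δ) := by
          intro γ hγ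
          obtain ⟨s, hcard, hs, h⟩ := hK γ (hE'2 δ hγ).1
          have hle : quotientHom (I σ) (D δ) ≤ s.sup id := by
            rw [← h]
            exact OrderHomClass.mono (quotientHom (I σ)) (hE'3 δ γ hγ)
          obtain ⟨t, hts, ht⟩ := sub_join s hs _ hle
          have htc : ¬ t.card ≤ m := fun hc => hδ ⟨t, hc, fun a ha => hs a (hts ha), ht⟩
          have hteq : t = s := Finset.eq_of_subset_of_card_le hts (by omega)
          rw [hteq, ← h] at ht
          exact (quotientHom_eq_iff.1 ht).2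
        have hDc : (Iic (D δ)).Countable := by
          obtain ⟨γ, hγ⟩ := nonempty_of_uncountable (hE'1 δ)
          exact (hcK γ (hE'2 δ hγ).1).mono (Iic_subset_Iic.2 (hE'3 δ γ hγ))
        let R : Set Om1 := {ζ | ∃ a ∈ A ζ, a ≤ D δ}
        have hRc : R.Countable := by
          have hch : ∀ ζ : R, ∃ a : Iic (D δ), a.1 ∈ A ζ.1 := by
            rintro ⟨ζ, a, ha, haD⟩
            exact ⟨⟨a, haD⟩, ha⟩
          choose f hf using hch
          have hinj : Function.Injective f := by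
            intro ζ ξ h
            by_contra hne
            have hne' : ζ.1 ≠ ξ.1 := fun h' => hne (Subtype.ext h')
            have h1 := hf ζ
            have h2 := hf ξ
            rw [← h] at h2
            exact (Finset.disjoint_left.1 (hA.disj _ _ hne')) h1 h2
          haveI : Countable (Iic (D δ)) := hDc.to_subtype
          exact Set.countable_coe_iff.1 hinj.countable
        refine hno ⟨E' δ \ R, ?_, fun γ => K γ \ D δ, ?_, ?_⟩
        · intro hc
          apply hE'1 δ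
          refine (hc.union hRc).mono ?_
          intro x hx
          by_cases hxR : x ∈ R
          · exact Or.inr hxR
          · exact Or.inl ⟨hx, hxR⟩
        · intro γ hγ
          exact hsub γ hγ.1
        · intro ξ hξ ζ hζ hlt
          obtain ⟨a, ha, haK⟩ := hinc ξ (hE'2 δ hξ.1).1 ζ (hE'2 δ hζ.1).1 hlt
          refine ⟨a, ha, atom_le_sdiff (hA.atom ζ a ha) haK ?_⟩
          intro h
          exact hζ.2 ⟨a, ha, h⟩
    rintro ⟨E, hE, K, hK, hinc⟩
    have hch : ∀ ξ : Om1, ∃ n : ℕ, ξ ∈ E → AtMost (I σ) n (K ξ) := by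
      intro ξ
      by_cases hξ : ξ ∈ E
      · obtain ⟨s, hs, h⟩ := (hI.succ σ (K ξ)).1 (hK ξ hξ)
        exact ⟨s.card, fun _ => ⟨s, le_rfl, hs, h⟩⟩
      · exact ⟨0, fun h => absurd h hξ⟩
    choose g hg using hch
    obtain ⟨n, hn⟩ := pigeon hE g
    refine key n ⟨_, hn, K, ?_, hinc.mono fun ξ hξ => hξ.1⟩
    rintro ξ ⟨hξ, hgξ⟩
    rw [← hgξ]
    exact hg ξ hξ

end Pool.Agent.E8helper17.PQ
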