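import Pool.Agent.E8helper17.PQ.OmTop

set_option autoImplicit false
set_option linter.all false

namespace Pool.Agent.E8helper17.PQ

open Set TopologicalSpace Filter

attribute [local instance] WellFoundedLT.toOrderBot WellFoundedLT.conditionallyCompleteLinearOrderBot

/-- the iterated derivatives of a space -/
noncomputable def derSeq (X : Type) [TopologicalSpace X] (β : Ordinal.{0}) : Set X :=
  Ordinal.limitRecOn (motive := fun _ => Set X) β univ (fun _ C => der C)
    (fun β _ C => {x | ∀ γ, ∀ h : γ < β, x ∈ C γ h})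

theorem isDerSeq (X : Type) [TopologicalSpace X] : IsDerSeq X (derSeq X) := by
  have h0 : derSeq X 0 = univ := by rw [derSeq, Ordinal.limitRecOn_zero]
  have hs : ∀ β, derSeq X (β + 1) = der (derSeq X β) := fun β => by
    rw [derSeq, Ordinal.limitRecOn_add_one]; rfl
  have hl : ∀ β, Order.IsSuccLimit β → ∀ x, x ∈ derSeq X β ↔ ∀ γ < β, x ∈ derSeq X γ := by
    intro β hβ x
    rw [derSeq, Ordinal.limitRecOn_limit _ _ _ _ hβ]
    rfl
  refine ⟨?_, h0, hs, hl⟩
  intro β
  induction β using Ordinal.limitRecOn with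
  | zero => rw [h0]; exact isClosed_univ
  | add_one β ih => rw [hs]; exact isClosed_der ih
  | limit β hβ ih =>
    have : derSeq X β = ⋂ γ : Iio β, derSeq X γ.1 := by
      ext x
      rw [hl β hβ, mem_iInter]
      constructor
      · intro h γ
        exact h γ.1 γ.2
      · intro h γ hγ
        exact h ⟨γ, hγ⟩
    rw [this]
    exact isClosed_iInter fun γ => ih γ.1 γ.2

section
variable {X : Type} [LinearOrder X] [WellFoundedLT X] [OrderTop X] [TopologicalSpace X]
  [OrderTopology X]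

/-- `F` is unbounded below the top -/
def Unb (F : Set X) : Prop := ∀ y : X, y < ⊤ → ∃ x ∈ F, y < x ∧ x < ⊤

lemma sup_seq (hX : OmegaLike X) (x : ℕ → X) (h : ∀ n, x n < ⊤) :
    ∃ y < ⊤, IsLUB (range x) y := by
  refine ⟨sSup (range x), ?_, isLUB_csSup (range_nonempty x) (OrderTop.bddAbove _)⟩
  by_contra hcon
  have htop : sSup (range x) = ⊤ := top_le_iff.1 (not_lt.1 hcon)
  apply hX.unc
  have : (univ : Set X) ⊆ (⋃ n, Iic (x n)) ∪ {⊤} := by
    intro y _
    rcases (le_top : y ≤ ⊤).lt_or_eq with hy | hy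
    · left
      by_contra hn
      rw [mem_iUnion, not_exists] at hn
      have hub : y ∈ upperBounds (range x) := by
        rintro _ ⟨n, rfl⟩
        exact (not_le.1 (hn n)).le
      have := (isLUB_csSup (range_nonempty x) (OrderTop.bddAbove _)).2 hub
      rw [htop] at this
      exact hy.not_ge this
    · right; exact hy
  exact ((countable_iUnion fun n => hX.cnt _ (h n)).union (countable_singleton _)).mono this

lemma unb_univ (hX : OmegaLike X) : Unb (univ : Set X) := by
  intro y hy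
  by_contra hcon
  push Not at hcon
  apply hX.unc
  have : (univ : Set X) ⊆ Iic y ∪ {⊤} := by
    intro x _
    rcases le_or_gt x y with h | h
    · exact Or.inl h
    · exact Or.inr (top_le_iff.1 (hcon x (mem_univ _) h))
  exact ((hX.cnt y hy).union (countable_singleton _)).mono this

lemma uncountable_of_unb (hX : OmegaLike X) {F : Set X} (hF : Unb F) : ¬ F.Countable := by
  intro hc
  by_cases hb : (⊥ : X) < ⊤
  · obtain ⟨x0, hx0, _, hx0t⟩ := hF ⊥ hb
    have hne : (F ∩ Iio ⊤).Nonempty := ⟨x0, hx0, hx0t⟩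
    have hc' : (F ∩ Iio ⊤).Countable := hc.mono inter_subset_left
    obtain ⟨f, hf⟩ := hc'.exists_eq_range hne
    obtain ⟨y, hy, hlub⟩ := sup_seq hX f (fun n => by
      have : f n ∈ F ∩ Iio ⊤ := by rw [hf]; exact mem_range_self n
      exact this.2)
    obtain ⟨z, hz, hyz, hzt⟩ := hF y hy
    have hz' : z ∈ range f := by rw [← hf]; exact ⟨hz, hzt⟩
    exact hyz.not_ge (hlub.1 hz')
  · apply hX.unc
    have : (univ : Set X) ⊆ {⊤} := by
      intro x _
      have h1 : (⊤ : X) ≤ ⊥ := not_lt.1 hb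
      have h2 : (⊥ : X) ≤ x := bot_le
      exact top_le_iff.1 (h1.trans h2)
    exact (countable_singleton _).mono this

/-- the limit of an increasing sequence -/
lemma seq_limit (hX : OmegaLike X) (x : ℕ → X) (hx : StrictMono x) (h : ∀ n, x n < ⊤) :
    ∃ y < ⊤, (∀ n, x n < y) ∧ Tendsto x atTop (nhds y) := by
  obtain ⟨y, hy, hlub⟩ := sup_seq hX x h
  refine ⟨y, hy, fun n => ?_, tendsto_atTop_isLUB hx.monotone hlub⟩
  exact (hx (Nat.lt_succ_self n)).trans_le (hlub.1 (mem_range_self _))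

lemma unb_der (hX : OmegaLike X) {F : Set X} (hF : IsClosed F) (hu : Unb F) : Unb (der F) := by
  intro y hy
  have hstep : ∀ z : {z : X // z < ⊤}, ∃ w : {z : X // z < ⊤}, w.1 ∈ F ∧ z.1 < w.1 := by
    rintro ⟨z, hz⟩
    obtain ⟨w, hw, hzw, hwt⟩ := hu z hz
    exact ⟨⟨w, hwt⟩, hw, hzw⟩
  choose g hg1 hg2 using hstep
  let s : ℕ → {z : X // z < ⊤} := fun n => g^[n + 1] ⟨y, hy⟩
  have hs : ∀ n, s (n + 1) = g (s n) := fun n => Function.iterate_succ_apply' _ _ _
  have hmem : ∀ n, (s n).1 ∈ F := by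
    intro n
    have : s n = g (g^[n] ⟨y, hy⟩) := Function.iterate_succ_apply' _ _ _
    rw [this]
    exact hg1 _
  have hmono : StrictMono fun n => (s n).1 := strictMono_nat_of_lt_succ fun n => by
    rw [hs]; exact hg2 _
  obtain ⟨z, hz, hlt, htend⟩ := seq_limit hX _ hmono (fun n => (s n).2)
  have hzF : z ∈ F := hF.mem_of_tendsto htend (Eventually.of_forall hmem)
  refine ⟨z, ⟨hzF, ?_⟩, ?_, hz⟩
  · rintro ⟨_, U, hU, hUF⟩
    have hzU : z ∈ U ∩ F := by rw [hUF]; rfl
    have hev := htend.eventually (hU.mem_nhds hzU.1)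
    obtain ⟨n, hn⟩ := hev.exists
    have : (s n).1 ∈ U ∩ F := ⟨hn, hmem n⟩
    rw [hUF, mem_singleton_iff] at this
    exact absurd this (hlt n).ne
  · have h0 : y < (s 0).1 := hg2 ⟨y, hy⟩
    exact h0.trans (hlt 0)

lemma top_mem_of_unb {F : Set X} (hF : IsClosed F) (hu : Unb F) (hb : ∃ y : X, y < ⊤) :
    (⊤ : X) ∈ F := by
  obtain ⟨y, hy⟩ := hb
  obtain ⟨x0, hx0, _, _⟩ := hu y hy
  obtain ⟨m, hm, hmax⟩ := exists_max hF ⟨x0, hx0⟩
  rcases (le_top : m ≤ ⊤).lt_or_eq with h | h
  · obtain ⟨x, hx, hmx, _⟩ := hu m h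
    exact absurd (hmax x hx) (not_le.2 hmx)
  · rwa [← h]

/-- countable ordinals -/
lemma countable_Iio_ordinal {β : Ordinal.{0}} (hβ : β < Ordinal.omega 1) : (Iio β).Countable := by
  rw [← Cardinal.le_aleph0_iff_set_countable, Cardinal.mk_Iio_ordinal]
  have h1 : β.card < Cardinal.aleph 1 := by
    rw [← Cardinal.lt_ord, Cardinal.ord_aleph]; exact hβ
  have h2 : β.card ≤ Cardinal.aleph0 := by
    rwa [← Cardinal.succ_aleph0, Order.lt_succ_iff] at h1
  calc Cardinal.lift.{1} β.card ≤ Cardinal.lift.{1} Cardinal.aleph0.{0} := Cardinal.lift_le.2 h2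
    _ = _ := Cardinal.lift_aleph0

lemma not_countable_Iio_omega_one : ¬ (Iio (Ordinal.omega 1 : Ordinal.{0})).Countable := by
  rw [← Cardinal.le_aleph0_iff_set_countable, Cardinal.mk_Iio_ordinal, ← Cardinal.ord_aleph,
    Cardinal.card_ord]
  intro h
  have h2 : Cardinal.lift.{1} (Cardinal.aleph.{0} 1) ≤ Cardinal.lift.{1} Cardinal.aleph0.{0} := by
    rw [Cardinal.lift_aleph0]; exact h
  rw [Cardinal.lift_le] at h2
  exact absurd h2 (not_le.2 Cardinal.aleph0_lt_aleph_one)

lemma unb_derSeq (hX : OmegaLike X) : ∀ β : Ordinal.{0}, β < Ordinal.omega 1 →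
    Unb (derSeq X β) := by
  have hD := isDerSeq X
  intro β
  induction β using Ordinal.limitRecOn with
  | zero => intro _; rw [hD.zero]; exact unb_univ hX
  | add_one β ih =>
    intro hβ
    rw [hD.succ]
    exact unb_der hX (hD.closed _) (ih (lt_of_le_of_lt (Order.le_succ β) hβ))
  | limit β hβ ih =>
    intro hβ1 y hy
    have hne : (Iio β).Nonempty := ⟨0, hβ.bot_lt⟩
    obtain ⟨g, hg⟩ := (countable_Iio_ordinal hβ1).exists_eq_range hne
    have hgl : ∀ n, g n < β := fun n => by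
      have : g n ∈ Iio β := by rw [hg]; exact mem_range_self n
      exact this
    let m : ℕ → Ordinal.{0} := fun n => (Finset.range (n + 1)).sup' ⟨0, by simp⟩ g
    have hm : ∀ n, m n < β := fun n => (Finset.sup'_lt_iff _).2 fun i _ => hgl i
    have hgm : ∀ i n, i ≤ n → g i ≤ m n := fun i n hin =>
      Finset.le_sup' g (Finset.mem_range.2 (Nat.lt_succ_of_le hin))
    have hstep : ∀ (n : ℕ) (z : {z : X // z < ⊤}), ∃ w : {z : X // z < ⊤},
        w.1 ∈ derSeq X (m n) ∧ z.1 < w.1 := by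
      rintro n ⟨z, hz⟩
      obtain ⟨w, hw, hzw, hwt⟩ := ih (m n) (hm n) ((hm n).trans hβ1) z hz
      exact ⟨⟨w, hwt⟩, hw, hzw⟩
    choose f hf1 hf2 using hstep
    let s : ℕ → {z : X // z < ⊤} := fun n => Nat.rec (f 0 ⟨y, hy⟩) (fun k z => f (k + 1) z) n
    have hs : ∀ n, s (n + 1) = f (n + 1) (s n) := fun n => rfl
    have hmem : ∀ n, (s n).1 ∈ derSeq X (m n) := by
      intro n
      cases n with
      | zero => exact hf1 0 _
      | succ n => rw [hs]; exact hf1 _ _
    have hmono : StrictMono fun n => (s n).1 := strictMono_nat_of_lt_succ fun n => by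
      rw [hs]; exact hf2 _ _
    obtain ⟨z, hz, hlt, htend⟩ := seq_limit hX _ hmono (fun n => (s n).2)
    refine ⟨z, ?_, ?_, hz⟩
    · rw [hD.limit β hβ]
      intro γ hγ
      have hγ' : γ ∈ range g := by rw [← hg]; exact hγ
      obtain ⟨i, rfl⟩ := hγ'
      refine (hD.closed _).mem_of_tendsto htend ?_
      filter_upwards [eventually_ge_atTop i] with n hn
      exact hD.anti _ _ (hgm i n hn) (hmem n)
    · have h0 : y < (s 0).1 := hf2 0 ⟨y, hy⟩
      exact h0.trans (hlt 0)

/-- the isolated points of an unbounded closed set are unbounded -/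
lemma unb_isolated (hX : OmegaLike X) {F : Set X} (hu : Unb F) : Unb {x | Isolated F x} := by
  intro y hy
  obtain ⟨x0, hx0, hyx0, hx0t⟩ := hu y hy
  have hne : {z : X | z ∈ F ∧ y < z}.Nonempty := ⟨x0, hx0, hyx0⟩
  let x := wellFounded_lt.min _ hne
  have hx : x ∈ {z : X | z ∈ F ∧ y < z} := wellFounded_lt.min_mem _ hne
  have hmin : ∀ z ∈ F, y < z → x ≤ z := fun z hz hyz =>
    not_lt.1 (wellFounded_lt.not_lt_min {z : X | z ∈ F ∧ y < z} ⟨hz, hyz⟩)
  refine ⟨x, ⟨hx.1, Ioi y ∩ Iic x, isOpen_Ioi.inter (isLowerSet_Iic x).isOpen, ?_⟩, hx.2,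
    (hmin x0 hx0 hyx0).trans_lt hx0t⟩
  apply Subset.antisymm
  · rintro z ⟨⟨hz1, hz2⟩, hz3⟩
    exact le_antisymm hz2 (hmin z hz3 hz1)
  · rintro _ rfl
    exact ⟨⟨hx.2, le_rfl⟩, hx.1⟩

theorem derSeq_omega_one (hX : OmegaLike X) (hb : ∃ y : X, y < ⊤) :
    derSeq X (Ordinal.omega 1) = {⊤} := by
  have hD := isDerSeq X
  have hlim : Order.IsSuccLimit (Ordinal.omega 1 : Ordinal.{0}) := by
    rw [← Cardinal.ord_aleph]
    exact Cardinal.isSuccLimit_ord (Cardinal.aleph0_le_aleph 1)
  apply Subset.antisymm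
  · intro x hx
    rw [mem_singleton_iff]
    by_contra hne
    have hxt : x < ⊤ := lt_top_iff_ne_top.2 hne
    have hxall := (hD.limit _ hlim x).1 hx
    have hmin : ∀ γ : Iio (Ordinal.omega 1 : Ordinal.{0}), ∃ m ∈ derSeq X γ.1,
        ∀ z ∈ derSeq X γ.1, m ≤ z := by
      intro γ
      have hne : (derSeq X γ.1).Nonempty := ⟨x, hxall γ.1 γ.2⟩
      exact ⟨wellFounded_lt.min _ hne, wellFounded_lt.min_mem _ hne, fun z hz =>
        not_lt.1 (wellFounded_lt.not_lt_min _ hz)⟩
    choose m hm1 hm2 using hmin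
    have hlt : ∀ γ γ' : Iio (Ordinal.omega 1 : Ordinal.{0}), γ < γ' → m γ ≠ m γ' := by
      intro γ γ' hγ heq
      have h1 : m γ' ∈ derSeq X (γ.1 + 1) := by
        refine hD.anti _ _ ?_ (hm1 γ')
        exact Order.succ_le_of_lt (show γ.1 < γ'.1 from hγ)
      rw [← heq, hD.succ] at h1
      refine h1.2 ⟨hm1 γ, Iic (m γ), (isLowerSet_Iic _).isOpen, ?_⟩
      apply Subset.antisymm
      · rintro z ⟨hz1, hz2⟩
        exact le_antisymm hz1 (hm2 γ z hz2)
      · rintro _ rfl
        exact ⟨le_rfl, hm1 γ⟩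
    have hinj : Function.Injective m := by
      intro γ γ' h
      by_contra hne
      rcases lt_or_gt_of_ne hne with h' | h'
      · exact hlt _ _ h' h
      · exact hlt _ _ h' h.symm
    apply not_countable_Iio_omega_one
    rw [← Set.countable_coe_iff]
    have hmaps : MapsTo m univ (Iic x) := fun γ _ => hm2 γ x (hxall γ.1 γ.2)
    have := hmaps.countable_of_injOn hinj.injOn (hX.cnt x hxt)
    exact Set.countable_univ_iff.1 this
  · rw [singleton_subset_iff, hD.limit _ hlim]
    intro γ hγ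
    exact top_mem_of_unb (hD.closed _) (unb_derSeq hX γ hγ) hb

theorem hasCardinalSequence_omegaLike (hX : OmegaLike X) (hcard : Cardinal.mk X = Cardinal.aleph 1) :
    HasCardinalSequence (Clopens X) (Cardinal.aleph 1) (Ordinal.omega 1) := by
  haveI := compactSpace_wo X
  haveI := totallyDisconnected_wo X
  have hb : ∃ y : X, y < ⊤ := by
    by_contra hcon
    push Not at hcon
    apply hX.unc
    refine (countable_singleton (⊤ : X)).mono ?_
    intro x _
    exact top_le_iff.1 (hcon x)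
  refine hasCardinalSequence_of (isDerSeq X) _ (Cardinal.aleph0_le_aleph 1) _ ?_
    ⟨⊤, derSeq_omega_one hX hb⟩
  intro β hβ
  apply le_antisymm
  · rw [← hcard]
    exact Cardinal.mk_subtype_le _
  · have hu := uncountable_of_unb hX (unb_isolated hX (unb_derSeq hX β hβ))
    rw [← Cardinal.le_aleph0_iff_set_countable, not_le] at hu
    rw [← Cardinal.succ_aleph0]
    exact Order.succ_le_of_lt hu

end

/-- the space `ω₁ + 1` -/
def Om1 : Type := (Cardinal.aleph 1).ord.ToType

noncomputable instance : LinearOrder Om1 :=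
  inferInstanceAs (LinearOrder (Cardinal.aleph 1).ord.ToType)

instance : WellFoundedLT Om1 := inferInstanceAs (WellFoundedLT (Cardinal.aleph 1).ord.ToType)

lemma mk_Om1 : Cardinal.mk Om1 = Cardinal.aleph 1 := Cardinal.mk_ord_toType _

lemma countable_Iio_Om1 (a : Om1) : (Iio a).Countable := by
  have h : Cardinal.mk (Iio a) < Cardinal.mk Om1 :=
    Cardinal.mk_Iio_lt (α := (Cardinal.aleph 1).ord.ToType) a (by simp)
  rw [mk_Om1] at h
  rwa [← Cardinal.le_aleph0_iff_set_countable, ← Order.lt_succ_iff, Cardinal.succ_aleph0]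

lemma omegaLike_Om1 : OmegaLike (WithTop Om1) := by
  constructor
  · intro x hx
    obtain ⟨a, rfl⟩ := WithTop.ne_top_iff_exists.1 hx.ne
    have : Iic (a : WithTop Om1) ⊆ (fun b : Om1 => (b : WithTop Om1)) '' (Iio a ∪ {a}) := by
      intro y hy
      have hy' : y ≤ (a : WithTop Om1) := hy
      obtain ⟨b, rfl⟩ := WithTop.ne_top_iff_exists.1 (ne_top_of_le_ne_top WithTop.coe_ne_top hy')
      refine ⟨b, ?_, rfl⟩
      rcases (WithTop.coe_le_coe.1 hy').lt_or_eq with h | h
      · exact Or.inl h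
      · exact Or.inr h
    exact (((countable_Iio_Om1 a).union (countable_singleton a)).image _).mono this
  · intro h
    have h1 : (univ : Set Om1).Countable := by
      have hm : MapsTo (fun b : Om1 => (b : WithTop Om1)) univ univ := fun _ _ => mem_univ _
      exact hm.countable_of_injOn (WithTop.coe_injective.injOn) h
    rw [← Cardinal.le_aleph0_iff_set_countable, Cardinal.mk_univ, mk_Om1] at h1
    exact absurd h1 (not_le.2 Cardinal.aleph0_lt_aleph_one)

lemma mk_withTop_Om1 : Cardinal.mk (WithTop Om1) = Cardinal.aleph 1 := by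
  show Cardinal.mk (Option Om1) = Cardinal.aleph 1
  rw [Cardinal.mk_option, mk_Om1]
  exact Cardinal.add_one_eq (Cardinal.aleph0_le_aleph 1)

theorem q1 : ∃ (B : Type) (_ : BooleanAlgebra B), PropertyP B ∧
    HasCardinalSequence B (Cardinal.aleph 1) (Ordinal.omega 1) := by
  letI : TopologicalSpace (WithTop Om1) := Preorder.topology _
  haveI : OrderTopology (WithTop Om1) := ⟨rfl⟩
  exact ⟨Clopens (WithTop Om1), inferInstance, propertyP_omegaLike omegaLike_Om1,
    hasCardinalSequence_omegaLike omegaLike_Om1 mk_withTop_Om1⟩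

end Pool.Agent.E8helper17.PQ
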