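import Pool.Agent.E8helper17.PQ.TopSeq

set_option autoImplicit false
set_option linter.all false

namespace Pool.Agent.E8helper17.PQ

open Set TopologicalSpace Filter

attribute [local instance] WellFoundedLT.toOrderBot WellFoundedLT.conditionallyCompleteLinearOrderBot

section
variable (X : Type) [LinearOrder X] [WellFoundedLT X] [TopologicalSpace X] [OrderTopology X]

lemma compactSpace_wo [OrderTop X] : CompactSpace X := by
  haveI : Nonempty X := ⟨⊤⟩
  refine ⟨?_⟩
  have h : (univ : Set X) = Icc ⊥ ⊤ := by
    ext x
    simp only [mem_univ, mem_Icc, le_top, and_true, true_iff]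
    exact bot_le
  rw [h]
  exact isCompact_Icc

lemma totallyDisconnected_wo : TotallyDisconnectedSpace X := by
  have h : TotallySeparatedSpace X := by
    rw [totallySeparatedSpace_iff_exists_isClopen]
    intro x y hxy
    have hcl : ∀ z : X, IsClopen (Iic z) := fun z => ⟨isClosed_Iic, (isLowerSet_Iic z).isOpen⟩
    rcases lt_or_gt_of_ne hxy with hlt | hlt
    · exact ⟨Iic x, hcl x, le_rfl, by simpa using hlt⟩
    · refine ⟨(Iic y)ᶜ, (hcl y).compl, by simpa using hlt, ?_⟩
      simp
  infer_instance

variable {X}

/-- a compact subset of a well-ordered space has the order topology -/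
lemma orderTopology_closed [OrderTop X] {F : Set X} (hF : IsClosed F) : OrderTopology F := by
  haveI := compactSpace_wo X
  haveI hc : CompactSpace F := isCompact_iff_compactSpace.1 hF.isCompact
  have h1 : (instTopologicalSpaceSubtype : TopologicalSpace F) ≤ Preorder.topology F := by
    refine le_generateFrom ?_
    rintro s ⟨a, rfl | rfl⟩
    · exact (isOpen_Ioi (a := a.1)).preimage continuous_subtype_val
    · exact (isOpen_Iio (a := a.1)).preimage continuous_subtype_val
  refine ⟨le_antisymm h1 ?_⟩
  have hO : @OrderTopology F (Preorder.topology F) _ := @OrderTopology.mk F (Preorder.topology F) _ rfl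
  have hT : @T2Space F (Preorder.topology F) := by
    letI := Preorder.topology F
    haveI : OrderTopology F := hO
    infer_instance
  have hcont : @Continuous F F instTopologicalSpaceSubtype (Preorder.topology F) (Equiv.refl F) :=
    continuous_id_iff_le.2 h1
  have h := @Continuous.homeoOfEquivCompactToT2 F F instTopologicalSpaceSubtype
    (Preorder.topology F) hc hT (Equiv.refl F) hcont
  have h2 := @Continuous.continuous_symm_of_equiv_compact_to_t2 F F instTopologicalSpaceSubtype
    (Preorder.topology F) hc hT (Equiv.refl F) hcont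
  exact continuous_id_iff_le.1 h2

lemma countable_clopens_of_countable [OrderTop X] {F : Set X} (hF : IsClosed F)
    (hc : F.Countable) : Countable (Clopens F) := by
  haveI := compactSpace_wo X
  haveI := totallyDisconnected_wo X
  haveI : CompactSpace F := isCompact_iff_compactSpace.1 hF.isCompact
  haveI := orderTopology_closed hF
  haveI : Countable F := hc.to_subtype
  rw [Clopens.countable_iff_secondCountable]
  refine ⟨⟨{s | ∃ a : F, s = Ioi a ∨ s = Iio a}, ?_, ?_⟩⟩
  · have : {s | ∃ a : F, s = Ioi a ∨ s = Iio a} = range (fun a : F => Ioi a) ∪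
        range (fun a : F => Iio a) := by
      ext s
      simp only [mem_setOf_eq, mem_union, mem_range]
      constructor
      · rintro ⟨a, rfl | rfl⟩
        · exact Or.inl ⟨a, rfl⟩
        · exact Or.inr ⟨a, rfl⟩
      · rintro (⟨a, rfl⟩ | ⟨a, rfl⟩)
        · exact ⟨a, Or.inl rfl⟩
        · exact ⟨a, Or.inr rfl⟩
    rw [this]
    exact (countable_range _).union (countable_range _)
  · exact OrderTopology.topology_eq_generate_intervals

end

/-- order type `ω₁ + 1` -/
structure OmegaLike (X : Type) [LinearOrder X] [OrderTop X] : Prop where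
  cnt : ∀ x : X, x < ⊤ → (Iic x).Countable
  unc : ¬ (univ : Set X).Countable

lemma initial_surj {X Y : Type} [LinearOrder X] [WellFoundedLT X] [OrderTop X]
    [LinearOrder Y] [WellFoundedLT Y] [OrderTop Y] (hX : OmegaLike X) (hY : OmegaLike Y)
    (f : InitialSeg ((· < ·) : X → X → Prop) ((· < ·) : Y → Y → Prop)) :
    Nonempty (X ≃o Y) := by
  rcases f.eq_or_principal with h | ⟨b, hb⟩
  · let e : X ≃ Y := Equiv.ofBijective f ⟨f.injective, h⟩
    exact ⟨⟨e, by
      intro x y
      show f x ≤ f y ↔ x ≤ y
      rw [← not_lt, ← not_lt, f.map_rel_iff]⟩⟩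
  · exfalso
    have h1 : f ⊤ < b := (hb (f ⊤)).1 ⟨⊤, rfl⟩
    have h2 : f ⊤ < ⊤ := h1.trans_le le_top
    apply hX.unc
    have h3 : MapsTo f univ (Iic (f ⊤)) := by
      intro x _
      rw [mem_Iic, ← not_lt, f.map_rel_iff]
      exact not_lt.2 le_top
    exact h3.countable_of_injOn f.injective.injOn (hY.cnt _ h2)

lemma omegaLike_iso {X Y : Type} [LinearOrder X] [WellFoundedLT X] [OrderTop X]
    [LinearOrder Y] [WellFoundedLT Y] [OrderTop Y] (hX : OmegaLike X) (hY : OmegaLike Y) :
    Nonempty (X ≃o Y) := by
  rcases InitialSeg.total ((· < ·) : X → X → Prop) ((· < ·) : Y → Y → Prop) with f | f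
  · exact initial_surj hX hY f
  · exact ⟨(initial_surj hY hX f).some.symm⟩

section
variable {X : Type} [LinearOrder X] [WellFoundedLT X] [OrderTop X] [TopologicalSpace X]
  [OrderTopology X]

lemma exists_max {F : Set X} (hF : IsClosed F) (hne : F.Nonempty) : ∃ m ∈ F, ∀ x ∈ F, x ≤ m := by
  haveI := compactSpace_wo X
  obtain ⟨m, hm⟩ := hF.isCompact.exists_isGreatest hne
  exact ⟨m, hm.1, fun x hx => hm.2 hx⟩

lemma top_mem_of_uncountable (hX : OmegaLike X) {F : Set X} (hF : IsClosed F)
    (hu : ¬ F.Countable) : (⊤ : X) ∈ F := by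
  have hne : F.Nonempty := by
    rw [nonempty_iff_ne_empty]
    rintro rfl
    exact hu countable_empty
  obtain ⟨m, hm, hmax⟩ := exists_max hF hne
  rcases (le_top : m ≤ ⊤).lt_or_eq with h | h
  · exact absurd ((hX.cnt m h).mono fun x hx => hmax x hx) hu
  · rwa [← h]

lemma homeo_of_uncountable (hX : OmegaLike X) {F : Set X} (hF : IsClosed F)
    (hu : ¬ F.Countable) : Nonempty (F ≃ₜ X) := by
  haveI := orderTopology_closed hF
  have htop := top_mem_of_uncountable hX hF hu
  letI : OrderTop F := { top := ⟨⊤, htop⟩, le_top := fun x => le_top }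
  have hL : OmegaLike F := by
    constructor
    · intro x hx
      have hx' : x.1 < ⊤ := hx
      have h1 : MapsTo (Subtype.val : F → X) (Iic x) (Iic x.1) := fun y hy => hy
      exact h1.countable_of_injOn Subtype.val_injective.injOn (hX.cnt _ hx')
    · intro h
      apply hu
      have : F = Subtype.val '' (univ : Set F) := by simp
      rw [this]
      exact h.image _
  obtain ⟨e⟩ := omegaLike_iso hL hX
  exact ⟨e.toHomeomorph⟩

theorem propertyP_omegaLike (hX : OmegaLike X) : PropertyP (Clopens X) := by
  haveI := compactSpace_wo X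
  haveI := totallyDisconnected_wo X
  exact propertyP_of (fun F hF hc => countable_clopens_of_countable hF hc)
    (fun F hF hu => homeo_of_uncountable hX hF hu)

end

end Pool.Agent.E8helper17.PQ
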