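import Pool.Agent.E8helper17.PQ.Defs

set_option autoImplicit false
set_option linter.all false

namespace Pool.Agent.E8helper17.PQ

open Set TopologicalSpace

/-- order isomorphism from two surjections inducing the same order -/
lemma orderIso_of_surj {B Q D : Type} [PartialOrder Q] [PartialOrder D] (p : B → Q) (f : B → D)
    (hp : Function.Surjective p) (hf : Function.Surjective f)
    (h : ∀ a b, p a ≤ p b ↔ f a ≤ f b) : Nonempty (Q ≃o D) := by
  have hpe : ∀ a b, p a = p b ↔ f a = f b := fun a b => by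
    constructor
    · intro hab
      exact le_antisymm ((h a b).1 hab.le) ((h b a).1 hab.ge)
    · intro hab
      exact le_antisymm ((h a b).2 hab.le) ((h b a).2 hab.ge)
  refine ⟨{ toFun := fun q => f (Function.surjInv hp q)
            invFun := fun d => p (Function.surjInv hf d)
            left_inv := ?_, right_inv := ?_, map_rel_iff' := ?_ }⟩
  · intro q
    show p (Function.surjInv hf (f (Function.surjInv hp q))) = q
    have h1 := (hpe _ (Function.surjInv hp q)).2
      (Function.surjInv_eq hf (f (Function.surjInv hp q)))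
    rw [h1, Function.surjInv_eq hp]
  · intro d
    show f (Function.surjInv hp (p (Function.surjInv hf d))) = d
    have h1 := (hpe _ (Function.surjInv hf d)).1
      (Function.surjInv_eq hp (p (Function.surjInv hf d)))
    rw [h1, Function.surjInv_eq hf]
  · intro a b
    show f (Function.surjInv hp a) ≤ f (Function.surjInv hp b) ↔ a ≤ b
    rw [← h, Function.surjInv_eq hp, Function.surjInv_eq hp]

section
variable {X : Type} [TopologicalSpace X]

/-- the ideal of the clopen sets disjoint from `C` -/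
def JC (C : Set X) : Ideal (AsBoolRing (Clopens X)) :=
  mkIdeal {b : Clopens X | Disjoint (b : Set X) C} (by simp)
    (by
      intro a ha b hb
      show Disjoint ((a ⊔ b : Clopens X) : Set X) C
      rw [Clopens.coe_sup]
      exact Disjoint.union_left ha hb)
    (by
      intro a b hab hb
      exact Disjoint.mono_left hab hb)

lemma mem_JC {C : Set X} {b : Clopens X} : Mem (JC C) b ↔ Disjoint (b : Set X) C := Iff.rfl

lemma q_le {C : Set X} {a b : Clopens X} :
    quotientHom (JC C) a ≤ quotientHom (JC C) b ↔ (a : Set X) ∩ C ⊆ b := by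
  rw [quotientHom_le, mem_JC, Clopens.coe_sdiff, Set.disjoint_left]
  constructor
  · rintro h x ⟨hx, hC⟩
    by_contra hb
    exact h ⟨hx, hb⟩ hC
  · rintro h x ⟨hx, hb⟩ hC
    exact hb (h ⟨hx, hC⟩)

lemma q_eq {C : Set X} {a b : Clopens X} :
    quotientHom (JC C) a = quotientHom (JC C) b ↔ (a : Set X) ∩ C = (b : Set X) ∩ C := by
  rw [le_antisymm_iff, q_le, q_le]
  constructor
  · rintro ⟨h1, h2⟩
    ext x
    exact ⟨fun hx => ⟨h1 hx, hx.2⟩, fun hx => ⟨h2 hx, hx.2⟩⟩
  · intro h
    exact ⟨h ▸ inter_subset_left, h ▸ inter_subset_left⟩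

/-- `x` is an isolated point of `C` -/
def Isolated (C : Set X) (x : X) : Prop := x ∈ C ∧ ∃ U : Set X, IsOpen U ∧ U ∩ C = {x}

/-- the derived set -/
def der (C : Set X) : Set X := {x | x ∈ C ∧ ¬ Isolated C x}

lemma der_subset (C : Set X) : der C ⊆ C := fun _ h => h.1

lemma isClosed_der {C : Set X} (hC : IsClosed C) : IsClosed (der C) := by
  have : der C = C ∩ (⋃ U ∈ {U : Set X | IsOpen U ∧ ∃ x ∈ C, U ∩ C = {x}}, U)ᶜ := by
    ext x
    simp only [der, Isolated, mem_setOf_eq, mem_inter_iff, mem_compl_iff, mem_iUnion, not_exists,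
      exists_prop]
    constructor
    · rintro ⟨hx, h⟩
      refine ⟨hx, ?_⟩
      rintro U ⟨⟨hU, y, hy, hUy⟩, hxU⟩
      have hxy : x ∈ U ∩ C := ⟨hxU, hx⟩
      rw [hUy, mem_singleton_iff] at hxy
      subst hxy
      exact h ⟨hx, U, hU, hUy⟩
    · rintro ⟨hx, h⟩
      refine ⟨hx, ?_⟩
      rintro ⟨_, U, hU, hUx⟩
      have hxy : x ∈ U ∩ C := by rw [hUx]; rfl
      exact h U ⟨⟨hU, x, hx, hUx⟩, hxy.1⟩
  rw [this]
  exact hC.inter (isOpen_biUnion fun U hU => hU.1).isClosed_compl

variable [CompactSpace X] [T2Space X] [TotallyDisconnectedSpace X]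

lemma exists_clopen_isolated {C : Set X} {x : X} (h : Isolated C x) :
    ∃ a : Clopens X, (a : Set X) ∩ C = {x} := by
  obtain ⟨hx, U, hU, hUC⟩ := h
  have hxU : x ∈ U ∩ C := by rw [hUC]; rfl
  obtain ⟨V, hV, hxV, hVU⟩ := compact_exists_isClopen_in_isOpen hU hxU.1
  refine ⟨⟨V, hV⟩, ?_⟩
  apply Subset.antisymm
  · rw [← hUC]
    exact inter_subset_inter_left _ hVU
  · rintro _ rfl
    exact ⟨hxV, hx⟩

lemma isolated_of_clopen {C : Set X} {x : X} {a : Clopens X} (h : (a : Set X) ∩ C = {x}) :
    Isolated C x := by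
  have hx : x ∈ (a : Set X) ∩ C := by rw [h]; rfl
  exact ⟨hx.2, a, a.isOpen, h⟩

lemma isAtom_iff {C : Set X} {a : Clopens X} :
    IsAtom (quotientHom (JC C) a) ↔ ∃ x, (a : Set X) ∩ C = {x} := by
  constructor
  · intro h
    have hne : ((a : Set X) ∩ C).Nonempty := by
      rw [Set.nonempty_iff_ne_empty]
      intro he
      apply h.1
      rw [quotientHom_eq_bot, mem_JC, Set.disjoint_iff_inter_eq_empty]
      exact he
    obtain ⟨x, hx⟩ := hne
    refine ⟨x, Subset.antisymm ?_ (singleton_subset_iff.2 hx)⟩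
    intro y hy
    by_contra hxy
    have hxy' : x ≠ y := fun h => hxy h.symm
    obtain ⟨U, hU, hxU, hyU⟩ := exists_isClopen_of_totally_separated hxy'
    have hlt : quotientHom (JC C) (a ⊓ ⟨U, hU⟩) < quotientHom (JC C) a := by
      refine lt_of_le_not_ge (q_le.2 ?_) ?_
      · rintro z ⟨hz, _⟩
        exact hz.1
      · rw [q_le]
        intro hsub
        exact hyU (hsub hy).2
    have := h.2 _ hlt
    rw [quotientHom_eq_bot, mem_JC, Set.disjoint_left] at this
    exact this ⟨hx.1, hxU⟩ hx.2
  · rintro ⟨x, hx⟩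
    have hxm : x ∈ (a : Set X) ∩ C := by rw [hx]; rfl
    refine ⟨?_, ?_⟩
    · rw [Ne, quotientHom_eq_bot, mem_JC, Set.disjoint_left]
      intro h
      exact h hxm.1 hxm.2
    · intro c hc
      obtain ⟨c, rfl⟩ := quotientHom_surjective (JC C) c
      have h1 := q_le.1 hc.le
      rw [quotientHom_eq_bot, mem_JC, Set.disjoint_left]
      intro y hyc hyC
      have hya : y ∈ (a : Set X) ∩ C := ⟨h1 ⟨hyc, hyC⟩, hyC⟩
      rw [hx, mem_singleton_iff] at hya
      subst hya
      refine hc.not_ge (q_le.2 ?_)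
      rw [hx]
      exact singleton_subset_iff.2 hyc

lemma finite_of_sup {C : Set X} (s : Finset (QuotientAlgebra (Clopens X) (JC C))) :
    (∀ a ∈ s, IsAtom a) → ∀ b : Clopens X, quotientHom (JC C) b = s.sup id →
      ∀ x ∈ (b : Set X) ∩ C, Isolated C x := by
  classical
  induction s using Finset.induction_on with
  | empty =>
    intro _ b hb x hx
    rw [Finset.sup_empty, quotientHom_eq_bot, mem_JC, Set.disjoint_left] at hb
    exact absurd hx.2 (hb hx.1)
  | insert a s has ih =>
    intro hs b hb x hx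
    obtain ⟨a', ha'⟩ := quotientHom_surjective (JC C) a
    obtain ⟨c, hc⟩ := quotientHom_surjective (JC C) (s.sup id)
    have h1 : quotientHom (JC C) b = quotientHom (JC C) (a' ⊔ c) := by
      rw [hb, Finset.sup_insert, map_sup, ha', hc]; rfl
    rw [q_eq] at h1
    rw [h1] at hx
    rcases hx with ⟨hx | hx, hC⟩
    · have hat : IsAtom (quotientHom (JC C) a') := by
        rw [ha']; exact hs a (Finset.mem_insert_self _ _)
      obtain ⟨y, hy⟩ := isAtom_iff.1 hat
      have : x ∈ (a' : Set X) ∩ C := ⟨hx, hC⟩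
      rw [hy, mem_singleton_iff] at this
      subst this
      exact isolated_of_clopen hy
    · exact ih (fun a ha => hs a (Finset.mem_insert_of_mem ha)) c hc x ⟨hx, hC⟩

lemma succ_iff {C : Set X} (hC : IsClosed C) (b : Clopens X) :
    Mem (JC (der C)) b ↔ ∃ s : Finset (QuotientAlgebra (Clopens X) (JC C)),
      (∀ a ∈ s, IsAtom a) ∧ quotientHom (JC C) b = s.sup id := by
  classical
  rw [mem_JC, Set.disjoint_left]
  constructor
  · intro h
    have hiso : ∀ x ∈ (b : Set X) ∩ C, Isolated C x := by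
      rintro x ⟨hx, hxC⟩
      by_contra hn
      exact h hx ⟨hxC, hn⟩
    have hcomp : IsCompact ((b : Set X) ∩ C) := (b.isClosed.inter hC).isCompact
    have hch : ∀ x : ((b : Set X) ∩ C : Set X), ∃ a : Clopens X, (a : Set X) ∩ C = {x.1} :=
      fun x => exists_clopen_isolated (hiso x.1 x.2)
    choose a ha using hch
    obtain ⟨t, ht⟩ := hcomp.elim_finite_subcover (fun x => (a x : Set X))
      (fun x => (a x).isOpen) (by
        intro x hx
        refine mem_iUnion.2 ⟨⟨x, hx⟩, ?_⟩
        have : x ∈ (a ⟨x, hx⟩ : Set X) ∩ C := by rw [ha]; rfl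
        exact this.1)
    refine ⟨t.image (fun x => quotientHom (JC C) (a x)), ?_, ?_⟩
    · intro q hq
      obtain ⟨x, _, rfl⟩ := Finset.mem_image.1 hq
      exact isAtom_iff.2 ⟨_, ha x⟩
    · rw [Finset.sup_image]
      have : quotientHom (JC C) (t.sup a) = t.sup (id ∘ fun x => quotientHom (JC C) (a x)) := by
        rw [map_finset_sup]; rfl
      rw [← this, q_eq, Clopens.coe_finset_sup]
      ext x
      constructor
      · intro hx
        obtain ⟨i, hi, hxi⟩ := mem_iUnion₂.1 (ht hx)
        refine ⟨?_, hx.2⟩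
        simp only [Finset.sup_eq_iSup, iSup_eq_iUnion, mem_iUnion]
        exact ⟨i, hi, hxi⟩
      · rintro ⟨hx, hxC⟩
        simp only [Finset.sup_eq_iSup, iSup_eq_iUnion, mem_iUnion] at hx
        obtain ⟨i, hi, hxi⟩ := hx
        have h2 : x ∈ (a i : Set X) ∩ C := ⟨hxi, hxC⟩
        rw [ha i, mem_singleton_iff] at h2
        rw [h2]
        exact i.2
  · rintro ⟨s, hs, hb⟩ x hx ⟨hxC, hn⟩
    exact hn (finite_of_sup s hs b hb x ⟨hx, hxC⟩)

/-- the closed set of an ideal -/
def CJ (J : Ideal (AsBoolRing (Clopens X))) : Set X := {x | ∀ b : Clopens X, Mem J b → x ∉ b}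

lemma isClosed_CJ (J : Ideal (AsBoolRing (Clopens X))) : IsClosed (CJ J) := by
  have : CJ J = ⋂ b : {b : Clopens X // Mem J b}, ((b.1 : Set X))ᶜ := by
    ext x
    simp only [CJ, mem_setOf_eq, mem_iInter, mem_compl_iff, Subtype.forall]
    rfl
  rw [this]
  exact isClosed_iInter fun b => b.1.isOpen.isClosed_compl

lemma ideal_eq (J : Ideal (AsBoolRing (Clopens X))) : J = JC (CJ J) := by
  classical
  refine ideal_ext fun b => ?_
  rw [mem_JC, Set.disjoint_left]
  constructor
  · intro hb x hx hxC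
    exact hxC b hb hx
  · intro h
    have hcomp : IsCompact (b : Set X) := b.isClosed.isCompact
    obtain ⟨t, ht⟩ := hcomp.elim_finite_subcover
      (fun c : {c : Clopens X // Mem J c} => (c.1 : Set X)) (fun c => c.1.isOpen) (by
        intro x hx
        have := h hx
        simp only [CJ, mem_setOf_eq, not_forall, not_not] at this
        obtain ⟨c, hc, hxc⟩ := this
        exact mem_iUnion.2 ⟨⟨c, hc⟩, hxc⟩)
    have hm : ∀ t : Finset {c : Clopens X // Mem J c}, Mem J (t.sup (fun c => c.1)) := by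
      intro t
      induction t using Finset.induction_on with
      | empty => simpa using mem_bot J
      | insert c t hc ih =>
        rw [Finset.sup_insert]
        exact mem_sup c.2 ih
    refine mem_down ?_ (hm t)
    intro x hx
    obtain ⟨i, hi, hxi⟩ := mem_iUnion₂.1 (ht hx)
    exact (Finset.le_sup (f := fun c : {c : Clopens X // Mem J c} => c.1) hi) hxi

/-- the quotient by the ideal of `C` is the clopen algebra of `C` -/
lemma quotient_iso {C : Set X} (hC : IsClosed C) :
    Nonempty (QuotientAlgebra (Clopens X) (JC C) ≃o Clopens C) := by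
  let f : Clopens X → Clopens C := fun a => ⟨Subtype.val ⁻¹' (a : Set X),
    a.isClopen.preimage continuous_subtype_val⟩
  refine orderIso_of_surj (quotientHom (JC C)) f (quotientHom_surjective _) ?_ ?_
  · intro V
    have hcomp : CompactSpace C := isCompact_iff_compactSpace.1 hC.isCompact
    have h1 : IsClosed (Subtype.val '' (V : Set C)) :=
      hC.isClosedEmbedding_subtypeVal.isClosedMap _ V.isClosed
    have h2 : IsClosed (Subtype.val '' ((V : Set C)ᶜ)) :=
      hC.isClosedEmbedding_subtypeVal.isClosedMap _ V.isOpen.isClosed_compl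
    obtain ⟨W, hW, hW1, hW2⟩ := exists_clopen_of_closed_subset_open h1 h2.isOpen_compl (by
      rintro _ ⟨x, hx, rfl⟩ ⟨y, hy, hxy⟩
      rw [Subtype.val_injective hxy] at hy
      exact hy hx)
    refine ⟨⟨W, hW⟩, ?_⟩
    apply Clopens.ext
    ext x
    constructor
    · intro hx
      by_contra hxV
      exact hW2 hx ⟨x, hxV, rfl⟩
    · intro hx
      exact hW1 ⟨x, hx, rfl⟩
  · intro a b
    rw [q_le]
    constructor
    · intro h x hx
      exact h ⟨hx, x.2⟩
    · rintro h x ⟨hx, hxC⟩
      exact h (show (⟨x, hxC⟩ : C) ∈ f a from hx)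

lemma clopens_iso_of_homeo {Y Z : Type} [TopologicalSpace Y] [TopologicalSpace Z] (e : Y ≃ₜ Z) :
    Nonempty (Clopens Y ≃o Clopens Z) := by
  refine ⟨{ toFun := fun a => ⟨e.symm ⁻¹' (a : Set Y), a.isClopen.preimage e.symm.continuous⟩
            invFun := fun a => ⟨e ⁻¹' (a : Set Z), a.isClopen.preimage e.continuous⟩
            left_inv := ?_, right_inv := ?_, map_rel_iff' := ?_ }⟩
  · intro a
    apply Clopens.ext
    ext x
    show e.symm (e x) ∈ (a : Set Y) ↔ x ∈ (a : Set Y)
    rw [e.symm_apply_apply]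
  · intro a
    apply Clopens.ext
    ext x
    show e (e.symm x) ∈ (a : Set Z) ↔ x ∈ (a : Set Z)
    rw [e.apply_symm_apply]
  · intro a b
    constructor
    · intro h x hx
      have : e x ∈ (⟨e.symm ⁻¹' (a : Set Y), a.isClopen.preimage e.symm.continuous⟩ : Clopens Z) := by
        show e.symm (e x) ∈ (a : Set Y)
        rw [e.symm_apply_apply]; exact hx
      have h2 := h this
      have h3 : e.symm (e x) ∈ (b : Set Y) := h2
      rwa [e.symm_apply_apply] at h3
    · intro h x hx
      exact h (show e.symm x ∈ a from hx)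

/-- property (P) from the topology -/
theorem propertyP_of (h0 : ∀ F : Set X, IsClosed F → F.Countable → Countable (Clopens F))
    (h1 : ∀ F : Set X, IsClosed F → ¬ F.Countable → Nonempty (F ≃ₜ X)) :
    PropertyP (Clopens X) := by
  intro J hJ
  have hcl := isClosed_CJ J
  obtain ⟨e⟩ := quotient_iso hcl
  rw [← ideal_eq J] at e
  by_cases hc : (CJ J).Countable
  · exfalso
    have h2 := h0 _ hcl hc
    have h3 : Countable (QuotientAlgebra (Clopens X) J) := e.injective.countable
    exact (not_countable_iff.2 hJ) h3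
  · obtain ⟨g⟩ := h1 _ hcl hc
    obtain ⟨g'⟩ := clopens_iso_of_homeo g
    exact ⟨e.trans g'⟩

end

end Pool.Agent.E8helper17.PQ
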