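import Pool.Agent.E8helper17.PQ.Top

set_option autoImplicit false
set_option linter.all false

namespace Pool.Agent.E8helper17.PQ

open Set TopologicalSpace

/-- the iterated Cantor-Bendixson derivatives of a space -/
structure IsDerSeq (X : Type) [TopologicalSpace X] (C : Ordinal.{0} → Set X) : Prop where
  closed : ∀ β, IsClosed (C β)
  zero : C 0 = univ
  succ : ∀ β, C (β + 1) = der (C β)
  limit : ∀ β, Order.IsSuccLimit β → ∀ x, x ∈ C β ↔ ∀ γ < β, x ∈ C γ

variable {X : Type} [TopologicalSpace X]

lemma IsDerSeq.anti {C : Ordinal.{0} → Set X} (h : IsDerSeq X C) :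
    ∀ β γ, γ ≤ β → C β ⊆ C γ := by
  intro β
  induction β using Ordinal.limitRecOn with
  | zero =>
    intro γ hγ
    have : γ = 0 := le_antisymm hγ zero_le
    rw [this]
  | add_one β ih =>
    intro γ hγ
    rcases hγ.lt_or_eq with hlt | rfl
    · rw [h.succ]
      exact (der_subset _).trans (ih γ (Order.lt_add_one_iff.1 hlt))
    · exact subset_rfl
  | limit β hβ ih =>
    intro γ hγ
    rcases hγ.lt_or_eq with hlt | rfl
    · intro x hx
      exact (h.limit β hβ x).1 hx γ hlt
    · exact subset_rfl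

variable [CompactSpace X] [T2Space X] [TotallyDisconnectedSpace X]

theorem cb_of {C : Ordinal.{0} → Set X} (h : IsDerSeq X C) :
    CantorBendixsonIdeals (Clopens X) (fun β => JC (C β)) := by
  refine ⟨?_, ?_, ?_⟩
  · refine ideal_ext fun b => ?_
    rw [mem_JC, h.zero, Set.disjoint_univ]
    constructor
    · intro hb
      have : b = ⊥ := Clopens.ext hb
      rw [this]
      exact mem_bot _
    · intro hb
      have hb' : (toBoolRing b : AsBoolRing (Clopens X)) = 0 := hb
      have : b = ⊥ := by
        have := congrArg ofBoolRing hb'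
        simpa using this
      rw [this]; rfl
  · intro β b
    have := succ_iff (h.closed β) b
    rw [← h.succ β] at this
    exact this
  · intro β hβ b
    show Mem (JC (C β)) b ↔ ∃ γ < β, Mem (JC (C γ)) b
    constructor
    · intro hb
      rw [mem_JC, Set.disjoint_iff_inter_eq_empty] at hb
      have hne : Nonempty (Iio β) := ⟨⟨0, hβ.bot_lt⟩⟩
      have hcomp : IsCompact (b : Set X) := b.isClosed.isCompact
      obtain ⟨i, hi⟩ := hcomp.elim_directed_family_closed (fun γ : Iio β => C γ.1)
        (fun γ => h.closed _) (by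
          rw [← hb]
          congr 1
          ext x
          rw [mem_iInter, h.limit β hβ]
          constructor
          · intro hx γ hγ
            exact hx ⟨γ, hγ⟩
          · intro hx γ
            exact hx γ.1 γ.2) (by
          intro γ γ'
          refine ⟨⟨max γ.1 γ'.1, mem_Iio.2 (max_lt (mem_Iio.1 γ.2) (mem_Iio.1 γ'.2))⟩, ?_, ?_⟩
          · exact h.anti _ _ (le_max_left _ _)
          · exact h.anti _ _ (le_max_right _ _))
      exact ⟨i.1, i.2, by rw [mem_JC, Set.disjoint_iff_inter_eq_empty]; exact hi⟩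
    · rintro ⟨γ, hγ, hb⟩
      rw [mem_JC] at hb ⊢
      exact hb.mono_right (h.anti _ _ hγ.le)

lemma atoms_equiv (C : Set X) :
    Nonempty ({a : QuotientAlgebra (Clopens X) (JC C) // IsAtom a} ≃ {x : X // Isolated C x}) := by
  classical
  have hch : ∀ x : {x : X // Isolated C x}, ∃ a : Clopens X, (a : Set X) ∩ C = {x.1} :=
    fun x => exists_clopen_isolated x.2
  choose f hf using hch
  refine ⟨(Equiv.ofBijective (fun x => ⟨quotientHom (JC C) (f x), isAtom_iff.2 ⟨_, hf x⟩⟩)
    ⟨?_, ?_⟩).symm⟩
  · intro x y hxy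
    have h1 : quotientHom (JC C) (f x) = quotientHom (JC C) (f y) := congrArg Subtype.val hxy
    rw [q_eq, hf, hf] at h1
    exact Subtype.ext (singleton_injective h1)
  · rintro ⟨a, ha⟩
    obtain ⟨b, rfl⟩ := quotientHom_surjective (JC C) a
    obtain ⟨x, hx⟩ := isAtom_iff.1 ha
    refine ⟨⟨x, isolated_of_clopen hx⟩, ?_⟩
    apply Subtype.ext
    show quotientHom (JC C) (f ⟨x, _⟩) = quotientHom (JC C) b
    rw [q_eq, hf, hx]

theorem hasCardinalSequence_of {C : Ordinal.{0} → Set X} (h : IsDerSeq X C) (κ : Cardinal.{0})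
    (hκ : Cardinal.aleph0 ≤ κ) (δ : Ordinal.{0})
    (hk : ∀ β < δ, Cardinal.mk {x : X // Isolated (C β) x} = κ) (hδ : ∃ x, C δ = {x}) :
    HasCardinalSequence (Clopens X) κ δ := by
  obtain ⟨p, hp⟩ := hδ
  have hat : ∀ β, Cardinal.mk {a : QuotientAlgebra (Clopens X) (JC (C β)) // IsAtom a} =
      Cardinal.mk {x : X // Isolated (C β) x} := fun β =>
    Cardinal.mk_congr (atoms_equiv (C β)).some
  have hiso : Isolated (C δ) p := by
    rw [hp]
    exact ⟨rfl, univ, isOpen_univ, by simp⟩
  refine ⟨fun β => JC (C β), cb_of h, ⟨δ + 1, ?_⟩, ?_, ?_, ?_⟩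
  · have hempty : C (δ + 1) = ∅ := by
      rw [h.succ, eq_empty_iff_forall_notMem]
      rintro x ⟨hx, hn⟩
      rw [hp, mem_singleton_iff] at hx
      rw [hx] at hn
      exact hn hiso
    rw [Ideal.eq_top_iff_one]
    show Mem (JC (C (δ + 1))) (ofBoolRing 1)
    rw [hempty, mem_JC]
    simp
  · intro β hβ
    have h1 := hat β
    rw [hk β hβ] at h1
    refine ⟨?_, h1⟩
    have h2 : Infinite {a : QuotientAlgebra (Clopens X) (JC (C β)) // IsAtom a} := by
      rw [Cardinal.infinite_iff, h1]; exact hκ
    exact Infinite.of_injective (fun a : {a : QuotientAlgebra (Clopens X) (JC (C β)) // IsAtom a}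
      => a.1) Subtype.val_injective
  · refine Finite.of_surjective (fun c : Bool => if c then (⊤ : QuotientAlgebra (Clopens X)
      (JC (C δ))) else ⊥) ?_
    intro q
    obtain ⟨b, rfl⟩ := quotientHom_surjective (JC (C δ)) q
    by_cases hb : p ∈ b
    · refine ⟨true, ?_⟩
      simp only [if_true]
      rw [← map_top (quotientHom (JC (C δ))), q_eq, hp]
      ext x
      constructor
      · rintro ⟨_, hx⟩
        rw [mem_singleton_iff] at hx
        subst hx
        exact ⟨hb, rfl⟩
      · rintro ⟨_, hx⟩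
        exact ⟨trivial, hx⟩
    · refine ⟨false, ?_⟩
      simp only [Bool.false_eq_true, if_false]
      rw [← map_bot (quotientHom (JC (C δ))), q_eq, hp]
      ext x
      constructor
      · rintro ⟨hx, _⟩
        exact absurd hx (by simp)
      · rintro ⟨hx1, hx⟩
        rw [mem_singleton_iff] at hx
        subst hx
        exact absurd hx1 hb
  · show Cardinal.mk {a : QuotientAlgebra (Clopens X) (JC (C δ)) // IsAtom a} = 1
    rw [hat δ, Cardinal.eq_one_iff_unique]
    constructor
    · constructor
      rintro ⟨x, hx, _⟩ ⟨y, hy, _⟩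
      rw [hp] at hx hy
      exact Subtype.ext (hx.trans hy.symm)
    · exact ⟨⟨p, hiso⟩⟩

end Pool.Agent.E8helper17.PQ
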